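import Pool.Agent.H69.SolHam

set_option autoImplicit false
open scoped Manifold ContDiff Topology
open Bundle Set

noncomputable section

namespace Pool.Agent.H69

/-- The coordinate vector of `z` in its preferred chart. -/
abbrev crd (z : TStar E3 SolM) : CotSpace E3 := chartAt (CotSpace E3) z z

lemma differential_hSol (z : TStar E3 SolM) (ξ : CotSpace E3) :
    (differential (CotSpace E3) hSol).eval z ξ = fderiv ℝ chSol (crd z) ξ := by
  rw [differential_eval (contMDiff_hSol.mdifferentiable (by simp))]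
  have h : inCh hSol z =ᶠ[𝓝 (chartAt (CotSpace E3) z z)] chSol := by
    filter_upwards [cot_target_nhds (mem_chart_target (CotSpace E3) z)] with w hw
    exact inCh_hSol hw
  rw [h.fderiv_eq]

lemma differential_fSol (z : TStar E3 SolM) (ξ : CotSpace E3) :
    (differential (CotSpace E3) fSol).eval z ξ = fderiv ℝ cfSol (crd z) ξ := by
  rw [differential_eval (contMDiff_fSol.mdifferentiable (by simp))]
  have h : inCh fSol z =ᶠ[𝓝 (chartAt (CotSpace E3) z z)] cfSol := by
    filter_upwards [cot_target_nhds (mem_chart_target (CotSpace E3) z)] with w hw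
    exact inCh_fSol hw
  rw [h.fderiv_eq]

lemma hSol_eq_chSol (z : TStar E3 SolM) : hSol z = chSol (crd z) := by
  rw [← inCh_hSol (mem_chart_target (CotSpace E3) z)]
  unfold inCh
  rw [Function.comp_apply, (chartAt (CotSpace E3) z).left_inv (mem_chart_source (CotSpace E3) z)]

/-- The Hamiltonian vector field in coordinates. -/
def XH (w : CotSpace E3) : CotSpace E3 :=
  (cmom X0 w • X0 w.1 + cmom X1 w • X1 w.1 + (cmom X2 w - 1) • X2 w.1,
    -(cmom X1 w ^ 2 - (cmom X2 w - 1) * cmom X2 w) • ContinuousLinearMap.fst ℝ ℝ (ℝ × ℝ))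

lemma isHamiltonianVector_XH (z : TStar E3 SolM) :
    IsHamiltonianVector hSol z (XH (crd z)) := by
  intro η
  rw [canonicalForm_apply, differential_hSol, fderiv_chSol]
  generalize crd z = w
  simp only [XH, map_add, map_smul, smul_eq_mul]
  have h : ∀ c : ℝ, (c • ContinuousLinearMap.fst ℝ ℝ (ℝ × ℝ)) η.1 = c * η.1.1 := fun c => rfl
  rw [h]
  ring

lemma XH_fst_fst (w : CotSpace E3) : (XH w).1.1 = cmom X0 w := by
  simp [XH, X0, X1, X2]

lemma XH_snd_X0 (w : CotSpace E3) :
    (XH w).2 (X0 w.1) = -(cmom X1 w ^ 2 - (cmom X2 w - 1) * cmom X2 w) := by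
  simp [XH, X0]

lemma XH_snd_X2 (w : CotSpace E3) : (XH w).2 (X2 w.1) = 0 := by
  simp [XH, X2]

lemma alpha_XH (z : TStar E3 SolM) :
    (liouvilleAdd fSol).eval z (XH (crd z)) =
      cmom X0 (crd z) ^ 2 * (1 - cmom X2 (crd z) / 4) +
      cmom X1 (crd z) ^ 2 * (2 - (cmom X2 (crd z) - 1) / 4) +
      (cmom X2 (crd z) - 1) ^ 2 * cmom X2 (crd z) / 4 := by
  rw [liouvilleAdd_eval, liouville_eval, ← chart_self_snd, differential_fSol, fderiv_cfSol,
    XH_fst_fst, XH_snd_X0, XH_snd_X2]
  have h2 : (crd z).2 (XH (crd z)).1 = cmom X0 (crd z) ^ 2 + cmom X1 (crd z) ^ 2 +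
      (cmom X2 (crd z) - 1) * cmom X2 (crd z) := by
    generalize crd z = w
    simp only [XH, map_add, map_smul, smul_eq_mul]
    simp only [cmom]
    ring
  rw [h2]
  ring

theorem isContactType_sol {k : ℝ} (hk0 : 0 < k) (hk : k < 1 / 2) : IsContactType hSol k := by
  refine ⟨liouvilleAdd fSol, liouvilleAdd_isSmooth contMDiff_fSol, ?_, ?_⟩
  · intro z _ ξ η _ _
    exact liouvilleAdd_d contMDiff_fSol z ξ η
  · intro z hz
    refine ⟨XH (crd z), isHamiltonianVector_XH z, ?_⟩
    rw [alpha_XH]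
    rw [hSol_eq_chSol] at hz
    unfold chSol at hz
    set a := cmom X0 (crd z)
    set b := cmom X1 (crd z)
    set c := cmom X2 (crd z)
    have h1 : (c - 1) ^ 2 < 1 := by nlinarith [sq_nonneg a, sq_nonneg b]
    have h2 : 0 < c := by nlinarith
    have h3 : c < 2 := by nlinarith
    have h4 : 0 ≤ a ^ 2 * (1 - c / 4 - 1 / 4) := by
      apply mul_nonneg (sq_nonneg a); linarith
    have h5 : 0 ≤ b ^ 2 * (2 - (c - 1) / 4 - 1 / 4) := by
      apply mul_nonneg (sq_nonneg b); linarith
    by_cases hab : a ^ 2 + b ^ 2 = 0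
    · have h6 : (c - 1) ^ 2 = 2 * k := by linarith
      have h7 : 0 < (c - 1) ^ 2 * c / 4 := by
        rw [h6]; positivity
      nlinarith [sq_nonneg a, sq_nonneg b]
    · have h6 : 0 < a ^ 2 + b ^ 2 :=
        lt_of_le_of_ne (by positivity) (Ne.symm hab)
      have h7 : 0 ≤ (c - 1) ^ 2 * c / 4 := by positivity
      nlinarith [sq_nonneg a, sq_nonneg b]

end Pool.Agent.H69
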