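import Pool.Agent.H69.SolContact

set_option autoImplicit false
open scoped Manifold ContDiff Topology
open Bundle Set

noncomputable section

namespace Pool.Agent.H69

lemma contMDiff_smulE3 (g : Gam) : ContMDiff 𝓘(ℝ, E3) 𝓘(ℝ, E3) ∞ (fun y : E3 => g • y) :=
  (Gam.contDiff_smul g).contMDiff

lemma exists_chart_smul (y : E3) : ∃ g : Gam, chartAt E3 (qq y) (qq y) = g • y := by
  apply exists_smul_of_qq_eq
  exact atlas_qq (chart_mem_atlas E3 _) (mem_chart_source E3 _)

lemma qq_isLocalDiffeomorph : IsLocalDiffeomorph 𝓘(ℝ, E3) 𝓘(ℝ, E3) ∞ qq := by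
  intro y
  obtain ⟨g, hg⟩ := exists_chart_smul y
  set x := qq y with hx
  let Φ : OpenPartialHomeomorph E3 SolM :=
    (Homeomorph.smul g).toOpenPartialHomeomorph ≫ₕ (chartAt E3 x).symm
  have hΦs : Φ.source = (fun y : E3 => g • y) ⁻¹' (chartAt E3 x).target := by
    simp [Φ]
    rfl
  have hΦ : ∀ z, Φ z = (chartAt E3 x).symm (g • z) := fun z => rfl
  have hΦi : ∀ z, Φ.symm z = g⁻¹ • (chartAt E3 x z) := fun z => rfl
  have hΦt : Φ.target ⊆ (chartAt E3 x).source := by
    simp [Φ]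
  refine ⟨{ toPartialEquiv := Φ.toPartialEquiv
            open_source := Φ.open_source
            open_target := Φ.open_target
            contMDiffOn_toFun := ?_
            contMDiffOn_invFun := ?_ }, ?_, ?_⟩
  · have h1 := contMDiffOn_chart_symm (I := 𝓘(ℝ, E3)) (n := ∞) (x := x)
    exact h1.comp ((contMDiff_smulE3 g).contMDiffOn) (by rw [hΦs]; exact subset_rfl)
  · have h1 := contMDiffOn_chart (I := 𝓘(ℝ, E3)) (n := ∞) (x := x)
    exact (contMDiff_smulE3 g⁻¹).comp_contMDiffOn (h1.mono hΦt)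
  · change y ∈ Φ.source
    rw [hΦs]
    change g • y ∈ (chartAt E3 x).target
    rw [← hg]
    exact mem_chart_target E3 x
  · intro z hz
    change qq z = Φ z
    rw [hΦ, atlas_symm (chart_mem_atlas E3 x), qq_smul]

instance : SimplyConnectedSpace E3 := inferInstance

theorem isUniversalCovering_qq : IsUniversalCovering E3 qq where
  simplyConnected := inferInstance
  isCoveringMap := qq_isCoveringMap
  surjective := qq_surjective
  isLocalDiffeomorph := qq_isLocalDiffeomorph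

lemma mfderiv_qq (y : E3) : ∃ g : Gam, chartAt E3 (qq y) (qq y) = g • y ∧
    (mfderiv 𝓘(ℝ, E3) 𝓘(ℝ, E3) qq y : E3 →L[ℝ] E3) = fderiv ℝ (fun y : E3 => g • y) y := by
  have hd : MDifferentiableAt 𝓘(ℝ, E3) 𝓘(ℝ, E3) qq y :=
    (qq_isLocalDiffeomorph.contMDiff y).mdifferentiableAt (by simp)
  have hcont : ContinuousAt qq y := hd.continuousAt
  have h1 : ContinuousAt (fun z => chartAt E3 (qq y) (qq z)) y :=
    ((chartAt E3 (qq y)).continuousAt (mem_chart_source E3 _)).comp hcont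
  obtain ⟨g, hg⟩ := locally_smul (F := fun z => chartAt E3 (qq y) (qq z)) h1 (by
    filter_upwards [hcont ((chartAt E3 (qq y)).open_source.mem_nhds (mem_chart_source E3 _))]
      with z hz
    exact atlas_qq (chart_mem_atlas E3 _) hz)
  refine ⟨g, hg.self_of_nhds, ?_⟩
  rw [hd.mfderiv, ModelWithCorners.range_eq_univ, fderivWithin_univ]
  exact hg.fderiv_eq

lemma mom_lift {X : E3 → E3} (hX : InvField X) (z : TStar E3 E3) :
    mom X (TStar.mk (qq z.base) (ContinuousLinearMap.comp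
      (z.covector : TangentSpace 𝓘(ℝ, E3) z.base →L[ℝ] ℝ)
      (mfderiv 𝓘(ℝ, E3) 𝓘(ℝ, E3) qq z.base).inverse)) = z.cov (X z.base) := by
  obtain ⟨g, hg1, hg2⟩ := mfderiv_qq z.base
  have e := (qq_isLocalDiffeomorph z.base).mfderivToContinuousLinearEquiv_coe (by simp)
  have h2 : (mfderiv 𝓘(ℝ, E3) 𝓘(ℝ, E3) qq z.base).inverse
      (mfderiv 𝓘(ℝ, E3) 𝓘(ℝ, E3) qq z.base (X z.base)) = X z.base := by
    rw [← e, ContinuousLinearMap.inverse_equiv]
    exact ContinuousLinearEquiv.symm_apply_apply _ _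
  have h3 : (mfderiv 𝓘(ℝ, E3) 𝓘(ℝ, E3) qq z.base : E3 →L[ℝ] E3) (X z.base) =
      X (chartAt E3 (qq z.base) (qq z.base)) := by
    rw [hg1, ← hX g z.base, ← hg2]
    rfl
  have h4 : (mfderiv 𝓘(ℝ, E3) 𝓘(ℝ, E3) qq z.base).inverse
      (X (chartAt E3 (qq z.base) (qq z.base))) = X z.base := by
    refine Eq.trans ?_ h2
    exact congrArg _ h3.symm
  exact congrArg z.cov h4

lemma lift_hSol (z : TStar E3 E3) : liftHamiltonian qq hSol z =
    ((z.cov (X0 z.base)) ^ 2 + (z.cov (X1 z.base)) ^ 2 + (z.cov (X2 z.base) - 1) ^ 2) / 2 := by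
  unfold liftHamiltonian hSol
  rw [mom_lift invField_X0, mom_lift invField_X1, mom_lift invField_X2]

end Pool.Agent.H69
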