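import Pool.Agent.H69.SolCover

set_option autoImplicit false
open scoped Manifold ContDiff Topology
open Bundle Set

noncomputable section

namespace Pool.Agent.H69

lemma eq_zero_of_frame {v : E3 →L[ℝ] ℝ} {y : E3} (h0 : v (X0 y) = 0) (h1 : v (X1 y) = 0)
    (h2 : v (X2 y) = 0) : v = 0 := by
  refine ContinuousLinearMap.ext fun u => ?_
  have e : u = u.1 • X0 y + (u.2.1 * Real.exp (-y.1)) • X1 y + (u.2.2 * Real.exp y.1) • X2 y := by
    refine Prod.ext ?_ (Prod.ext ?_ ?_)
    · simp [X0, X1, X2]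
    · simp [X0, X1, X2, mul_assoc, ← Real.exp_add]
    · simp [X0, X1, X2, mul_assoc, ← Real.exp_add]
  rw [e]
  simp [h0, h1, h2]

/-- The sum of the absolute values of the momenta. -/
def nSol (z : TStar E3 SolM) : ℝ := |mom X0 z| + |mom X1 z| + |mom X2 z|

lemma isFibreNorm_nSol : IsFibreNorm nSol where
  continuous := by
    have h0 := (contMDiff_mom invField_X0 contDiff_X0).continuous
    have h1 := (contMDiff_mom invField_X1 contDiff_X1).continuous
    have h2 := (contMDiff_mom invField_X2 contDiff_X2).continuous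
    exact (h0.abs.add h1.abs).add h2.abs
  pos x p hp := by
    by_contra hcon
    push Not at hcon
    apply hp
    unfold nSol at hcon
    have a0 := abs_nonneg (mom X0 (TStar.mk x p))
    have a1 := abs_nonneg (mom X1 (TStar.mk x p))
    have a2 := abs_nonneg (mom X2 (TStar.mk x p))
    have b0 : |mom X0 (TStar.mk x p)| = 0 := by linarith
    have b1 : |mom X1 (TStar.mk x p)| = 0 := by linarith
    have b2 : |mom X2 (TStar.mk x p)| = 0 := by linarith
    exact eq_zero_of_frame (v := (p : E3 →L[ℝ] ℝ)) (abs_eq_zero.1 b0) (abs_eq_zero.1 b1)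
      (abs_eq_zero.1 b2)
  smul x c p := by
    have h : ∀ X : E3 → E3, mom X (TStar.mk x (c • p)) = c * mom X (TStar.mk x p) := fun X => rfl
    unfold nSol
    rw [h, h, h, abs_mul, abs_mul, abs_mul]
    ring
  add_le x p p' := by
    have h : ∀ X : E3 → E3, mom X (TStar.mk x (p + p')) =
      mom X (TStar.mk x p) + mom X (TStar.mk x p') := fun X => rfl
    unfold nSol
    rw [h, h, h]
    have a0 := abs_add_le (mom X0 (TStar.mk x p)) (mom X0 (TStar.mk x p'))
    have a1 := abs_add_le (mom X1 (TStar.mk x p)) (mom X1 (TStar.mk x p'))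
    have a2 := abs_add_le (mom X2 (TStar.mk x p)) (mom X2 (TStar.mk x p'))
    linarith

lemma iteratedDeriv_two_quadratic (A B C : ℝ) :
    iteratedDeriv 2 (fun t : ℝ => A + B * t + C * t ^ 2) 0 = 2 * C := by
  have h1 : deriv (fun t : ℝ => A + B * t + C * t ^ 2) = fun t => B + 2 * C * t := by
    funext t
    have h : HasDerivAt (fun t : ℝ => A + B * t + C * t ^ 2) (B + 2 * C * t) t := by
      have h2 : HasDerivAt (fun t : ℝ => B * t) (B * 1) t := (hasDerivAt_id t).const_mul B
      have h3 : HasDerivAt (fun t : ℝ => C * t ^ 2) (C * (2 * t ^ 1 * 1)) t := by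
        simpa using ((hasDerivAt_id t).pow 2).const_mul C
      have h4 := (h2.const_add A).add h3
      refine h4.congr_deriv ?_
      ring
    exact h.deriv
  have h2 : deriv (fun t : ℝ => B + 2 * C * t) = fun _ => 2 * C := by
    funext t
    have h : HasDerivAt (fun t : ℝ => B + 2 * C * t) (2 * C * 1) t :=
      ((hasDerivAt_id t).const_mul (2 * C)).const_add B
    rw [h.deriv]
    ring
  rw [iteratedDeriv_succ, iteratedDeriv_one, h1, h2]

theorem isConvexSuperlinear_hSol : IsConvexSuperlinear hSol where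
  contMDiff := contMDiff_hSol.of_le (WithTop.coe_le_coe.2 le_top)
  convex x p v hv := by
    have h : ∀ (X : E3 → E3) (t : ℝ), mom X (TStar.mk x (p + t • v)) =
      mom X (TStar.mk x p) + t * mom X (TStar.mk x v) := fun X t => rfl
    have e : (fun t : ℝ => hSol (TStar.mk x (p + t • v))) = fun t : ℝ =>
        (mom X0 (TStar.mk x p) ^ 2 + mom X1 (TStar.mk x p) ^ 2 +
          (mom X2 (TStar.mk x p) - 1) ^ 2) / 2 +
        (mom X0 (TStar.mk x p) * mom X0 (TStar.mk x v) +
          mom X1 (TStar.mk x p) * mom X1 (TStar.mk x v) +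
          (mom X2 (TStar.mk x p) - 1) * mom X2 (TStar.mk x v)) * t +
        ((mom X0 (TStar.mk x v) ^ 2 + mom X1 (TStar.mk x v) ^ 2 +
          mom X2 (TStar.mk x v) ^ 2) / 2) * t ^ 2 := by
      funext t
      unfold hSol
      rw [h, h, h]
      ring
    rw [e, iteratedDeriv_two_quadratic]
    by_contra hcon
    push Not at hcon
    have a0 := sq_nonneg (mom X0 (TStar.mk x v))
    have a1 := sq_nonneg (mom X1 (TStar.mk x v))
    have a2 := sq_nonneg (mom X2 (TStar.mk x v))
    have b0 : mom X0 (TStar.mk x v) ^ 2 = 0 := by linarith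
    have b1 : mom X1 (TStar.mk x v) ^ 2 = 0 := by linarith
    have b2 : mom X2 (TStar.mk x v) ^ 2 = 0 := by linarith
    exact hv (eq_zero_of_frame (v := (v : E3 →L[ℝ] ℝ)) (pow_eq_zero_iff (two_ne_zero) |>.1 b0)
      (pow_eq_zero_iff (two_ne_zero) |>.1 b1) (pow_eq_zero_iff (two_ne_zero) |>.1 b2))
  superlinear := by
    refine ⟨nSol, isFibreNorm_nSol, fun K => ?_⟩
    set L := |K| + 1 with hL
    have hL0 : 0 < L := by positivity
    have hLK : K + 1 ≤ L := by have := le_abs_self K; linarith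
    refine ⟨L + 3 * L ^ 2 / 2, fun z hz => ?_⟩
    unfold nSol hSol at *
    have h0 : L * |mom X0 z| - L ^ 2 / 2 ≤ mom X0 z ^ 2 / 2 := by
      rw [← sq_abs (mom X0 z)]; nlinarith [sq_nonneg (|mom X0 z| - L)]
    have h1 : L * |mom X1 z| - L ^ 2 / 2 ≤ mom X1 z ^ 2 / 2 := by
      rw [← sq_abs (mom X1 z)]; nlinarith [sq_nonneg (|mom X1 z| - L)]
    have h2 : L * |mom X2 z - 1| - L ^ 2 / 2 ≤ (mom X2 z - 1) ^ 2 / 2 := by
      rw [← sq_abs (mom X2 z - 1)]; nlinarith [sq_nonneg (|mom X2 z - 1| - L)]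
    have h3 : |mom X2 z| - 1 ≤ |mom X2 z - 1| := by
      have := abs_sub_abs_le_abs_sub (mom X2 z) 1
      simpa using this
    have h4 : L * (|mom X2 z| - 1) ≤ L * |mom X2 z - 1| := mul_le_mul_of_nonneg_left h3 hL0.le
    set n := |mom X0 z| + |mom X1 z| + |mom X2 z| with hn
    have hn0 : 0 ≤ n := by positivity
    have h5 : (K + 1) * n ≤ L * n := mul_le_mul_of_nonneg_right hLK hn0
    have h6 : L * n = L * |mom X0 z| + L * |mom X1 z| + L * |mom X2 z| := by rw [hn]; ring
    linarith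

lemma hSol_nonneg (z : TStar E3 SolM) : 0 ≤ hSol z := by
  unfold hSol; positivity

theorem energyZero_hSol : energyZero hSol = 0 := by
  unfold energyZero
  apply IsLeast.csInf_eq
  constructor
  · intro x
    have key : ∃ p : E3 →L[ℝ] ℝ, p (X0 (chartAt E3 x x)) = 0 ∧
        p (X1 (chartAt E3 x x)) = 0 ∧ p (X2 (chartAt E3 x x)) = 1 := by
      refine ⟨Real.exp (chartAt E3 x x).1 • ((ContinuousLinearMap.snd ℝ ℝ ℝ).comp
        (ContinuousLinearMap.snd ℝ ℝ (ℝ × ℝ))), ?_, ?_, ?_⟩
      · simp [X0]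
      · simp [X1]
      · simp [X2, ← Real.exp_add]
    obtain ⟨p, h0, h1, h2⟩ := key
    refine ⟨p, ?_⟩
    have e : hSol (TStar.mk x p) = (p (X0 (chartAt E3 x x)) ^ 2 +
      p (X1 (chartAt E3 x x)) ^ 2 + (p (X2 (chartAt E3 x x)) - 1) ^ 2) / 2 := rfl
    rw [e, h0, h1, h2]
    norm_num
  · intro k hk
    obtain ⟨p, hp⟩ := hk (qq 0)
    rw [← hp]
    exact hSol_nonneg _

/-- The main estimate: no smooth function on the universal cover is a strict subsolution. -/
lemma half_le_of_subsolution {u : E3 → ℝ} (hu : ContDiff ℝ ∞ u) {c : ℝ}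
    (h : ∀ y : E3, ((fderiv ℝ u y (X0 y)) ^ 2 + (fderiv ℝ u y (X1 y)) ^ 2 +
      (fderiv ℝ u y (X2 y) - 1) ^ 2) / 2 ≤ c) : 1 / 2 ≤ c := by
  by_contra hc
  push Not at hc
  have hdiff : Differentiable ℝ u := hu.differentiable (by simp)
  have hc0 : 0 ≤ c := le_trans (by positivity) (h 0)
  set r := Real.sqrt (2 * c) with hr
  have hr2 : r ^ 2 = 2 * c := Real.sq_sqrt (by linarith)
  have hr0 : 0 ≤ r := Real.sqrt_nonneg _
  have hr1 : r < 1 := by nlinarith
  -- derivative bounds
  have b0 : ∀ y : E3, |fderiv ℝ u y (X0 y)| ≤ r := by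
    intro y
    apply abs_le_of_sq_le_sq' _ hr0 |> abs_le.2
    nlinarith [h y, sq_nonneg (fderiv ℝ u y (X1 y)), sq_nonneg (fderiv ℝ u y (X2 y) - 1)]
  have b2 : ∀ y : E3, |fderiv ℝ u y (X2 y) - 1| ≤ r := by
    intro y
    apply abs_le_of_sq_le_sq' _ hr0 |> abs_le.2
    nlinarith [h y, sq_nonneg (fderiv ℝ u y (X1 y)), sq_nonneg (fderiv ℝ u y (X0 y))]
  -- the function along the third coordinate at height t
  have key : ∀ t : ℝ, (1 - r) * Real.exp t ≤ u (t, 0, 1) - u (t, 0, 0) := by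
    intro t
    have hder : ∀ s : ℝ, HasDerivAt (fun s : ℝ => u (t, 0, s))
        (fderiv ℝ u (t, 0, s) (0, 0, 1)) s := by
      intro s
      have h1 : HasDerivAt (fun s : ℝ => ((t, 0, s) : E3)) (0, 0, 1) s :=
        (hasDerivAt_const s t).prodMk ((hasDerivAt_const s (0 : ℝ)).prodMk (hasDerivAt_id s))
      exact (hdiff (t, 0, s)).hasFDerivAt.comp_hasDerivAt s h1
    have hlow : ∀ s : ℝ, (1 - r) * Real.exp t ≤ fderiv ℝ u (t, 0, s) (0, 0, 1) := by
      intro s
      have h3 := (abs_le.1 (b2 (t, 0, s))).1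
      have h4 : fderiv ℝ u (t, 0, s) (0, 0, 1) =
          Real.exp t * fderiv ℝ u (t, 0, s) (X2 (t, 0, s)) := by
        rw [← smul_eq_mul, ← map_smul]
        congr 1
        simp [X2, ← Real.exp_add]
      rw [h4]
      nlinarith [Real.exp_pos t]
    obtain ⟨s, -, hs⟩ := exists_hasDerivAt_eq_slope (fun s : ℝ => u (t, 0, s))
      (fun s => fderiv ℝ u (t, 0, s) (0, 0, 1)) (zero_lt_one)
      (fun s _ => (hder s).continuousAt.continuousWithinAt) (fun s _ => hder s)
    have := hlow s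
    rw [hs] at this
    simpa using this
  have up0 : u (0, 0, 1) - u (0, 0, 0) ≤ 2 := by
    have hder : ∀ s : ℝ, HasDerivAt (fun s : ℝ => u (0, 0, s))
        (fderiv ℝ u (0, 0, s) (0, 0, 1)) s := by
      intro s
      have h1 : HasDerivAt (fun s : ℝ => ((0, 0, s) : E3)) (0, 0, 1) s :=
        (hasDerivAt_const s (0 : ℝ)).prodMk
          ((hasDerivAt_const s (0 : ℝ)).prodMk (hasDerivAt_id s))
      exact (hdiff (0, 0, s)).hasFDerivAt.comp_hasDerivAt s h1
    have hup : ∀ s : ℝ, fderiv ℝ u (0, 0, s) (0, 0, 1) ≤ 2 := by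
      intro s
      have h3 := (abs_le.1 (b2 (0, 0, s))).2
      have h4 : X2 (0, 0, s) = (0, 0, 1) := by simp [X2]
      rw [h4] at h3
      linarith
    obtain ⟨s, -, hs⟩ := exists_hasDerivAt_eq_slope (fun s : ℝ => u (0, 0, s))
      (fun s => fderiv ℝ u (0, 0, s) (0, 0, 1)) (zero_lt_one)
      (fun s _ => (hder s).continuousAt.continuousWithinAt) (fun s _ => hder s)
    have := hup s
    rw [hs] at this
    simpa using this
  have side : ∀ (b : ℝ) (t : ℝ), 0 < t → |u (t, 0, b) - u (0, 0, b)| ≤ t := by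
    intro b t ht
    have hder : ∀ s : ℝ, HasDerivAt (fun s : ℝ => u (s, 0, b))
        (fderiv ℝ u (s, 0, b) (1, 0, 0)) s := by
      intro s
      have h1 : HasDerivAt (fun s : ℝ => ((s, 0, b) : E3)) (1, 0, 0) s :=
        (hasDerivAt_id s).prodMk ((hasDerivAt_const s (0 : ℝ)).prodMk (hasDerivAt_const s b))
      exact (hdiff (s, 0, b)).hasFDerivAt.comp_hasDerivAt s h1
    obtain ⟨s, -, hs⟩ := exists_hasDerivAt_eq_slope (fun s : ℝ => u (s, 0, b))
      (fun s => fderiv ℝ u (s, 0, b) (1, 0, 0)) ht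
      (fun s _ => (hder s).continuousAt.continuousWithinAt) (fun s _ => hder s)
    have h5 := b0 (s, 0, b)
    have h6 : X0 (s, 0, b) = (1, 0, 0) := rfl
    rw [h6, hs, sub_zero, abs_div, abs_of_pos ht, div_le_iff₀ ht] at h5
    nlinarith
  -- conclude
  have final : ∀ t : ℝ, 0 < t → (1 - r) * Real.exp t ≤ 2 + 2 * t := by
    intro t ht
    have k1 := key t
    have s0 := (abs_le.1 (side 0 t ht)).1
    have s1 := (abs_le.1 (side 1 t ht)).2
    linarith
  -- exponential growth
  have hq : ∀ t : ℝ, 0 < t → t ^ 2 / 2 ≤ Real.exp t := by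
    intro t ht
    have := Real.quadratic_le_exp_of_nonneg ht.le
    linarith
  set δ := 1 - r with hδ
  have hδ0 : 0 < δ := by linarith
  have hδ1 : δ ≤ 1 := by linarith
  have h8 := final (8 / δ) (by positivity)
  have h9 := hq (8 / δ) (by positivity)
  have h10 : δ * ((8 / δ) ^ 2 / 2) ≤ 2 + 2 * (8 / δ) :=
    le_trans (mul_le_mul_of_nonneg_left h9 hδ0.le) h8
  have h11 : δ * ((8 / δ) ^ 2 / 2) = 32 / δ := by field_simp; norm_num
  rw [h11] at h10
  have h12 : 32 / δ - 2 * (8 / δ) = 16 / δ := by ring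
  have h13 : (16 : ℝ) ≤ 16 / δ := by
    rw [le_div_iff₀ hδ0]; linarith
  linarith

theorem maneCritical_hSol : maneCritical (liftHamiltonian qq hSol) = 1 / 2 := by
  unfold maneCritical
  apply IsLeast.csInf_eq
  constructor
  · refine ⟨fun _ => 0, contMDiff_const, fun y => ?_⟩
    rw [lift_hSol]
    have h : (TStar.mk y (differential E3 (fun _ : E3 => (0 : ℝ)) y)).cov = 0 :=
      mfderiv_const
    rw [h]
    norm_num
  · rintro c ⟨u, hu, hc⟩
    apply half_le_of_subsolution (u := u) hu.contDiff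
    intro y
    have h := hc y
    rw [lift_hSol] at h
    have h2 : (TStar.mk y (differential E3 u y)).cov = fderiv ℝ u y := mfderiv_eq_fderiv
    rw [h2] at h
    exact h

end Pool.Agent.H69
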