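import Pool.Agent.H69.SolGroup

set_option autoImplicit false
open scoped Manifold ContDiff Topology
open Bundle Set

noncomputable section

namespace Pool.Agent.H69

/-- The compact solvmanifold `Γ \ Sol`. -/
abbrev SolM : Type := MulAction.orbitRel.Quotient Gam E3

/-- The quotient map. -/
def qq : E3 → SolM := Quotient.mk (MulAction.orbitRel Gam E3)

lemma qq_isQuotientCoveringMap : IsQuotientCoveringMap qq Gam :=
  isQuotientCoveringMap_quotientMk_of_properlyDiscontinuousSMul

lemma qq_isCoveringMap : IsCoveringMap qq := qq_isQuotientCoveringMap.isCoveringMap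

lemma qq_surjective : Function.Surjective qq := Quotient.mk_surjective

lemma qq_smul (g : Gam) (y : E3) : qq (g • y) = qq y := qq_isQuotientCoveringMap.map_smul g

lemma exists_smul_of_qq_eq {y z : E3} (h : qq y = qq z) : ∃ g : Gam, y = g • z := by
  obtain ⟨g, hg⟩ := qq_isQuotientCoveringMap.apply_eq_iff_mem_orbit.1 h
  exact ⟨g, hg.symm⟩

lemma locally_smul {F : E3 → E3} {y₀ : E3} (hF : ContinuousAt F y₀)
    (h : ∀ᶠ y in 𝓝 y₀, qq (F y) = qq y) : ∃ g : Gam, F =ᶠ[𝓝 y₀] (fun y => g • y) := by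
  obtain ⟨g, hg⟩ := exists_smul_of_qq_eq h.self_of_nhds
  refine ⟨g, ?_⟩
  obtain ⟨U, hU, hd⟩ := qq_isQuotientCoveringMap.disjoint (g • y₀)
  have h1 : ∀ᶠ y in 𝓝 y₀, F y ∈ U := hF (by rw [hg]; exact hU)
  have h2 : ∀ᶠ y in 𝓝 y₀, g • y ∈ U :=
    (continuous_const_smul g).continuousAt hU
  filter_upwards [h, h1, h2] with y hy h1 h2
  obtain ⟨k, hk⟩ := exists_smul_of_qq_eq hy
  have h3 : k * g⁻¹ = 1 := by
    apply hd
    refine ⟨F y, ⟨g • y, h2, ?_⟩, h1⟩
    simp only
    rw [hk, smul_smul]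
    simp
  have h4 : k = g := by
    rw [mul_inv_eq_one] at h3; exact h3
  rw [hk, h4]

/-- Every chart of the atlas is a local inverse of the quotient map. -/
lemma atlas_symm {e : OpenPartialHomeomorph SolM E3} (he : e ∈ atlas E3 SolM) (y : E3) :
    e.symm y = qq y := by
  obtain ⟨x, rfl⟩ := he
  rw [OpenPartialHomeomorph.trans_symm_eq_symm_trans_symm]
  simp only [chartAt_self_eq, OpenPartialHomeomorph.refl_symm, OpenPartialHomeomorph.coe_trans,
    OpenPartialHomeomorph.refl_apply, Function.comp_apply, IsLocalHomeomorph.localInverseAt_symm]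
  rfl

lemma atlas_qq {e : OpenPartialHomeomorph SolM E3} (he : e ∈ atlas E3 SolM) {x : SolM}
    (hx : x ∈ e.source) : qq (e x) = x := by
  rw [← atlas_symm he, e.left_inv hx]

lemma trans_locally_smul {e e' : OpenPartialHomeomorph SolM E3} (he : e ∈ atlas E3 SolM)
    (he' : e' ∈ atlas E3 SolM) {y : E3} (hy : y ∈ (e.symm ≫ₕ e').source) :
    ∃ g : Gam, (e.symm ≫ₕ e') =ᶠ[𝓝 y] (fun y => g • y) := by
  apply locally_smul
  · exact (e.symm ≫ₕ e').continuousAt hy
  · filter_upwards [(e.symm ≫ₕ e').open_source.mem_nhds hy] with z hz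
    rw [OpenPartialHomeomorph.coe_trans, Function.comp_apply]
    rw [OpenPartialHomeomorph.trans_source] at hz
    have h2 : e.symm z ∈ e'.source := hz.2
    rw [atlas_qq he' h2, atlas_symm he]

instance : IsManifold 𝓘(ℝ, E3) ∞ SolM := by
  apply isManifold_of_contDiffOn
  intro e e' he he' y hy
  simp only [modelWithCornersSelf_coe, modelWithCornersSelf_coe_symm, Function.comp_id,
    Function.id_comp, preimage_id_eq, id_eq, range_id, inter_univ] at hy ⊢
  obtain ⟨g, hg⟩ := trans_locally_smul he he' hy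
  exact ((Gam.contDiff_smul g).contDiffAt.congr_of_eventuallyEq hg).contDiffWithinAt

instance : ConnectedSpace SolM := by
  have : ConnectedSpace E3 := inferInstance
  exact qq_surjective.connectedSpace (continuous_quotient_mk')

/-- Every point can be moved into a fixed compact set by the lattice. -/
lemma exists_smul_mem_box (y : E3) : ∃ g : Gam,
    g • y ∈ (Set.Icc 0 tau ×ˢ (Set.Icc (-3) 3 ×ˢ Set.Icc (-3) 3) : Set E3) := by
  -- first shift the first coordinate
  have ht := tau_pos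
  set n : ℤ := -⌊y.1 / tau⌋ with hn
  set x' : ℝ := Real.exp (n * tau) * y.2.1 with hx'
  set z' : ℝ := Real.exp (-(n * tau)) * y.2.2 with hz'
  have h3 : (0 : ℝ) < √3 := Real.sqrt_pos.2 (by norm_num)
  have h33 : (√3 : ℝ) ≤ 2 := by
    rw [Real.sqrt_le_left (by norm_num)]; norm_num
  set a : ℤ := -⌊(x' + z') / 2⌋
  set b : ℤ := -⌊(x' - z') / (2 * √3)⌋
  refine ⟨⟨n, ⟨a, b⟩⟩, ?_⟩
  rw [Gam.smul_def, sp_apply, sm_apply]
  have f1 := Int.floor_le (y.1 / tau)
  have f2 := Int.lt_floor_add_one (y.1 / tau)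
  have f3 := Int.floor_le ((x' + z') / 2)
  have f4 := Int.lt_floor_add_one ((x' + z') / 2)
  have f5 := Int.floor_le ((x' - z') / (2 * √3))
  have f6 := Int.lt_floor_add_one ((x' - z') / (2 * √3))
  rw [le_div_iff₀ ht] at f1
  rw [div_lt_iff₀ ht] at f2
  rw [le_div_iff₀ (by positivity)] at f5
  rw [div_lt_iff₀ (by positivity)] at f6
  have ea : (a : ℝ) = -(⌊(x' + z') / 2⌋ : ℝ) := by simp [a]
  have eb : (b : ℝ) = -(⌊(x' - z') / (2 * √3)⌋ : ℝ) := by simp [b]
  have en : (n : ℝ) = -(⌊y.1 / tau⌋ : ℝ) := by simp [n]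
  refine ⟨⟨?_, ?_⟩, ⟨?_, ?_⟩, ⟨?_, ?_⟩⟩
  · simp only; rw [en]; nlinarith
  · simp only; rw [en]; nlinarith
  · simp only; rw [← hx', ea, eb]; nlinarith
  · simp only; rw [← hx', ea, eb]; nlinarith
  · simp only; rw [← hz', ea, eb]; nlinarith
  · simp only; rw [← hz', ea, eb]; nlinarith

instance : CompactSpace SolM := by
  have hK : IsCompact (Set.Icc 0 tau ×ˢ (Set.Icc (-3) 3 ×ˢ Set.Icc (-3) 3) : Set E3) :=
    isCompact_Icc.prod (isCompact_Icc.prod isCompact_Icc)
  have hc : Continuous qq := continuous_quotient_mk'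
  have h := hK.image hc
  refine ⟨?_⟩
  convert h
  symm
  rw [Set.eq_univ_iff_forall]
  intro x
  obtain ⟨y, rfl⟩ := qq_surjective x
  obtain ⟨g, hg⟩ := exists_smul_mem_box y
  exact ⟨g • y, hg, qq_smul g y⟩

instance : T2Space SolM := inferInstanceAs (T2Space (Quotient (MulAction.orbitRel Gam E3)))

instance : SecondCountableTopology SolM :=
  ChartedSpace.secondCountable_of_sigmaCompact E3 SolM

end Pool.Agent.H69
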