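import Pool.Agent.H69.TStarCoords
import Pool.Agent.H69.SolManifold

set_option autoImplicit false
open scoped Manifold ContDiff Topology
open Bundle Set

noncomputable section

namespace Pool.Agent.H69

/-- A vector field on the universal cover which is invariant under the lattice. -/
def InvField (X : E3 → E3) : Prop :=
  ∀ (g : Gam) (y : E3), fderiv ℝ (fun y : E3 => g • y) y (X y) = X (g • y)

lemma hasFDerivAt_smul (g : Gam) (y : E3) : HasFDerivAt (fun y : E3 => g • y)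
    ((ContinuousLinearMap.fst ℝ ℝ (ℝ × ℝ)).prod
      ((Real.exp (g.n * tau) • ((ContinuousLinearMap.fst ℝ ℝ ℝ).comp
        (ContinuousLinearMap.snd ℝ ℝ (ℝ × ℝ)))).prod
      (Real.exp (-(g.n * tau)) • ((ContinuousLinearMap.snd ℝ ℝ ℝ).comp
        (ContinuousLinearMap.snd ℝ ℝ (ℝ × ℝ)))))) y := by
  simp only [Gam.smul_def]
  refine HasFDerivAt.prodMk ?_ (HasFDerivAt.prodMk ?_ ?_)
  · exact (hasFDerivAt_fst).add_const _
  · have h : HasFDerivAt (fun y : E3 => y.2.1) ((ContinuousLinearMap.fst ℝ ℝ ℝ).comp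
        (ContinuousLinearMap.snd ℝ ℝ (ℝ × ℝ))) y :=
      ((ContinuousLinearMap.fst ℝ ℝ ℝ).comp (ContinuousLinearMap.snd ℝ ℝ (ℝ × ℝ))).hasFDerivAt
    exact (h.const_mul _).add_const _
  · have h : HasFDerivAt (fun y : E3 => y.2.2) ((ContinuousLinearMap.snd ℝ ℝ ℝ).comp
        (ContinuousLinearMap.snd ℝ ℝ (ℝ × ℝ))) y :=
      ((ContinuousLinearMap.snd ℝ ℝ ℝ).comp (ContinuousLinearMap.snd ℝ ℝ (ℝ × ℝ))).hasFDerivAt
    exact (h.const_mul _).add_const _

lemma fderiv_smul_apply (g : Gam) (y v : E3) : fderiv ℝ (fun y : E3 => g • y) y v =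
    (v.1, Real.exp (g.n * tau) * v.2.1, Real.exp (-(g.n * tau)) * v.2.2) := by
  rw [(hasFDerivAt_smul g y).fderiv]
  rfl

/-- The field `∂_t`. -/
def X0 : E3 → E3 := fun _ => (1, 0, 0)
/-- The field `e^t ∂_x`. -/
def X1 : E3 → E3 := fun y => (0, Real.exp y.1, 0)
/-- The field `e^{-t} ∂_y`. -/
def X2 : E3 → E3 := fun y => (0, 0, Real.exp (-y.1))

lemma invField_X0 : InvField X0 := by
  intro g y
  rw [fderiv_smul_apply]
  simp [X0]

lemma invField_X1 : InvField X1 := by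
  intro g y
  rw [fderiv_smul_apply]
  simp only [X1, Gam.smul_def, mul_zero]
  rw [← Real.exp_add, add_comm]

lemma invField_X2 : InvField X2 := by
  intro g y
  rw [fderiv_smul_apply]
  simp only [X2, Gam.smul_def, mul_zero]
  rw [← Real.exp_add]
  ring_nf

lemma chartDeriv_solM (x₀ : SolM) {y : E3} (hy : y ∈ (chartAt E3 x₀).target) :
    ∃ g : Gam, chartAt E3 ((chartAt E3 x₀).symm y) ((chartAt E3 x₀).symm y) = g • y ∧
      chartDeriv x₀ y = fderiv ℝ (fun y : E3 => g • y) y := by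
  set x := (chartAt E3 x₀).symm y with hx
  have hxs : x ∈ (chartAt E3 x).source := mem_chart_source E3 x
  have hsrc : y ∈ ((chartAt E3 x₀).symm ≫ₕ (chartAt E3 x)).source := by
    rw [OpenPartialHomeomorph.trans_source]
    exact ⟨hy, hxs⟩
  obtain ⟨g, hg⟩ := trans_locally_smul (chart_mem_atlas E3 x₀) (chart_mem_atlas E3 x) hsrc
  refine ⟨g, hg.self_of_nhds, ?_⟩
  have hs : MDifferentiableAt 𝓘(ℝ, E3) 𝓘(ℝ, E3) (chartAt E3 x₀).symm y := chart_symm_mdiff hy
  unfold chartDeriv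
  rw [hs.mfderiv, ModelWithCorners.range_eq_univ, fderivWithin_univ]
  exact hg.fderiv_eq

/-- The momentum `p(X)`. -/
def mom (X : E3 → E3) (z : TStar E3 SolM) : ℝ := z.cov (X (chartAt E3 z.base z.base))

lemma mom_symm {X : E3 → E3} (hX : InvField X) {z₀ : TStar E3 SolM}
    {w : CotSpace E3} (hw : w ∈ (chartAt (CotSpace E3) z₀).target) :
    mom X ((chartAt (CotSpace E3) z₀).symm w) = w.2 (X w.1) := by
  obtain ⟨g, hg1, hg2⟩ := chartDeriv_solM z₀.base (cot_target_fst hw)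
  have h := congrFun (congrArg DFunLike.coe (cot_symm_snd hw)) (X w.1)
  rw [h]
  unfold mom
  rw [cot_symm_fst hw, hg1, ← hX g w.1]
  rw [hg2]
  rfl

end Pool.Agent.H69
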