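import Mathlib

set_option autoImplicit false
open scoped Manifold ContDiff Topology
open Bundle Set

noncomputable section

namespace Pool.Agent.H69

/-- The model space. -/
abbrev E3 : Type := ℝ × ℝ × ℝ

/-- The unit `2 + √3` of `ℤ[√3]`. -/
def uu : (ℤ√3)ˣ := ⟨⟨2, 1⟩, ⟨2, -1⟩, by decide, by decide⟩

lemma sqrt3_mul : (√3 : ℝ) * √3 = ((3 : ℤ) : ℝ) := by
  push_cast
  exact Real.mul_self_sqrt (by norm_num)

lemma neg_sqrt3_mul : (-√3 : ℝ) * (-√3) = ((3 : ℤ) : ℝ) := by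
  rw [neg_mul_neg]; exact sqrt3_mul

/-- The first real embedding of `ℤ[√3]`. -/
def sp : ℤ√3 →+* ℝ := Zsqrtd.lift ⟨√3, sqrt3_mul⟩

/-- The second real embedding of `ℤ[√3]`. -/
def sm : ℤ√3 →+* ℝ := Zsqrtd.lift ⟨-√3, neg_sqrt3_mul⟩

lemma sp_apply (a : ℤ√3) : sp a = a.re + a.im * √3 := rfl
lemma sm_apply (a : ℤ√3) : sm a = a.re - a.im * √3 := by
  change (a.re : ℝ) + a.im * (-√3) = _
  ring

/-- The translation length `log (2 + √3)`. -/
def tau : ℝ := Real.log (2 + √3)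

lemma tau_pos : 0 < tau := by
  apply Real.log_pos
  have : (0 : ℝ) ≤ √3 := Real.sqrt_nonneg 3
  linarith

lemma exp_tau : Real.exp tau = 2 + √3 := by
  apply Real.exp_log
  have : (0 : ℝ) ≤ √3 := Real.sqrt_nonneg 3
  linarith

lemma exp_neg_tau : Real.exp (-tau) = 2 - √3 := by
  rw [Real.exp_neg, exp_tau]
  have h : (√3 : ℝ) * √3 = 3 := Real.mul_self_sqrt (by norm_num)
  have : (0 : ℝ) ≤ √3 := Real.sqrt_nonneg 3
  apply inv_eq_of_mul_eq_one_right
  nlinarith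

lemma sp_uu : sp (uu : ℤ√3) = Real.exp tau := by
  rw [exp_tau, sp_apply]
  simp [uu]

lemma sm_uu : sm (uu : ℤ√3) = Real.exp (-tau) := by
  rw [exp_neg_tau, sm_apply]
  simp [uu]

lemma sp_uu_zpow (n : ℤ) : sp ((uu ^ n : (ℤ√3)ˣ) : ℤ√3) = Real.exp (n * tau) := by
  have h : ((Units.map (sp : ℤ√3 →* ℝ) (uu ^ n) : ℝˣ) : ℝ) = Real.exp (n * tau) := by
    rw [map_zpow, Units.val_zpow_eq_zpow_val]
    change (sp (uu : ℤ√3)) ^ n = _
    rw [sp_uu, ← Real.rpow_intCast, ← Real.exp_mul, mul_comm]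
  exact h

lemma sm_uu_zpow (n : ℤ) : sm ((uu ^ n : (ℤ√3)ˣ) : ℤ√3) = Real.exp (-(n * tau)) := by
  have h : ((Units.map (sm : ℤ√3 →* ℝ) (uu ^ n) : ℝˣ) : ℝ) = Real.exp (-(n * tau)) := by
    rw [map_zpow, Units.val_zpow_eq_zpow_val]
    change (sm (uu : ℤ√3)) ^ n = _
    rw [sm_uu, ← Real.rpow_intCast, ← Real.exp_mul]
    ring_nf
  exact h

/-- The lattice in Sol: pairs `(n, a)` with `n` an integer and `a ∈ ℤ[√3]`. -/
@[ext] structure Gam where
  /-- the power of the unit -/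
  n : ℤ
  /-- the translation part -/
  a : ℤ√3

namespace Gam

instance : Mul Gam := ⟨fun g h => ⟨g.n + h.n, ((uu ^ g.n : (ℤ√3)ˣ) : ℤ√3) * h.a + g.a⟩⟩
instance : One Gam := ⟨⟨0, 0⟩⟩
instance : Inv Gam := ⟨fun g => ⟨-g.n, -(((uu ^ (-g.n) : (ℤ√3)ˣ) : ℤ√3) * g.a)⟩⟩

lemma mul_n (g h : Gam) : (g * h).n = g.n + h.n := rfl
lemma mul_a (g h : Gam) : (g * h).a = ((uu ^ g.n : (ℤ√3)ˣ) : ℤ√3) * h.a + g.a := rfl
lemma one_n : (1 : Gam).n = 0 := rfl
lemma one_a : (1 : Gam).a = 0 := rfl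
lemma inv_n (g : Gam) : (g⁻¹).n = -g.n := rfl
lemma inv_a (g : Gam) : (g⁻¹).a = -(((uu ^ (-g.n) : (ℤ√3)ˣ) : ℤ√3) * g.a) := rfl

instance : Group Gam := Group.ofLeftAxioms
  (by
    intro g h k
    ext1
    · simp only [mul_n]; ring
    · simp only [mul_n, mul_a, zpow_add, Units.val_mul]; ring)
  (by
    intro g
    ext1
    · simp only [mul_n, one_n]; ring
    · simp only [mul_a, one_n, one_a, zpow_zero, Units.val_one]; ring)
  (by
    intro g
    ext1
    · simp only [mul_n, inv_n, one_n]; ring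
    · simp only [mul_a, inv_n, inv_a, one_a]; ring)

instance : SMul Gam E3 := ⟨fun g e =>
  (e.1 + g.n * tau, Real.exp (g.n * tau) * e.2.1 + sp g.a,
    Real.exp (-(g.n * tau)) * e.2.2 + sm g.a)⟩

lemma smul_def (g : Gam) (e : E3) : g • e = (e.1 + g.n * tau, Real.exp (g.n * tau) * e.2.1 + sp g.a,
    Real.exp (-(g.n * tau)) * e.2.2 + sm g.a) := rfl

instance : MulAction Gam E3 where
  one_smul e := by
    rw [smul_def, one_n, one_a]
    simp
  mul_smul g h e := by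
    simp only [smul_def, mul_n, mul_a, map_add, map_mul, sp_uu_zpow, sm_uu_zpow]
    refine Prod.ext ?_ (Prod.ext ?_ ?_)
    · push_cast; ring
    · simp only
      rw [show (((g.n + h.n : ℤ) : ℝ) * tau) = g.n * tau + h.n * tau by push_cast; ring,
        Real.exp_add]
      ring
    · simp only
      rw [show -((((g.n + h.n : ℤ) : ℝ)) * tau) = -(g.n * tau) + -(h.n * tau) by push_cast; ring,
        Real.exp_add]
      ring

lemma contDiff_smul (g : Gam) : ContDiff ℝ ∞ (fun e : E3 => g • e) := by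
  simp only [smul_def]
  fun_prop

instance : ContinuousConstSMul Gam E3 := ⟨fun g => (contDiff_smul g).continuous⟩

lemma eq_zero_of_sp_sm {a : ℤ√3} (h1 : sp a = 0) (h2 : sm a = 0) : a = 0 := by
  rw [sp_apply] at h1
  rw [sm_apply] at h2
  have h3 : (0 : ℝ) < √3 := Real.sqrt_pos.2 (by norm_num)
  have h4 : (a.re : ℝ) = 0 := by linarith
  have h5 : (a.im : ℝ) * √3 = 0 := by linarith
  have h6 : (a.im : ℝ) = 0 := by
    rcases mul_eq_zero.1 h5 with h | h
    · exact h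
    · exact absurd h h3.ne'
  ext
  · simpa using h4
  · simpa using h6

instance : IsCancelSMul Gam E3 := by
  rw [isCancelSMul_iff_eq_one_of_smul_eq]
  intro g e h
  rw [smul_def] at h
  have h1 : e.1 + g.n * tau = e.1 := congrArg Prod.fst h
  have h2 : Real.exp (g.n * tau) * e.2.1 + sp g.a = e.2.1 := congrArg (fun z => z.2.1) h
  have h3 : Real.exp (-(g.n * tau)) * e.2.2 + sm g.a = e.2.2 := congrArg (fun z => z.2.2) h
  have h4 : (g.n : ℝ) * tau = 0 := by linarith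
  rw [h4] at h2 h3
  simp only [Real.exp_zero, neg_zero, one_mul, add_eq_left] at h2 h3
  have h5 : (g.n : ℝ) = 0 := by
    rcases mul_eq_zero.1 h4 with h | h
    · exact h
    · exact absurd h tau_pos.ne'
  ext1
  · exact_mod_cast h5
  · exact eq_zero_of_sp_sm h2 h3

instance : ProperlyDiscontinuousSMul Gam E3 where
  finite_disjoint_inter_image := by
    intro K L hK hL
    obtain ⟨R1, hR1⟩ := hK.isBounded.exists_norm_le
    obtain ⟨R2, hR2⟩ := hL.isBounded.exists_norm_le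
    set R := max R1 (max R2 0) with hR
    have hRK : ∀ k ∈ K, ‖k‖ ≤ R := fun k hk => le_trans (hR1 k hk) (le_max_left _ _)
    have hRL : ∀ k ∈ L, ‖k‖ ≤ R := fun k hk =>
      le_trans (hR2 k hk) (le_trans (le_max_left _ _) (le_max_right _ _))
    have hR0 : 0 ≤ R := le_trans (le_max_right _ _) (le_max_right _ _)
    obtain ⟨N, hN⟩ := exists_nat_ge (2 * R / tau)
    obtain ⟨C, hC⟩ := exists_nat_ge (R + Real.exp (2 * R) * R)
    have hfin : ({g : Gam | g.n ∈ Set.Icc (-(N : ℤ)) N ∧ g.a.re ∈ Set.Icc (-(C : ℤ)) C ∧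
        g.a.im ∈ Set.Icc (-(C : ℤ)) C}).Finite := by
      have h1 : ((Set.Icc (-(N : ℤ)) N) ×ˢ (Set.Icc (-(C : ℤ)) C) ×ˢ
          (Set.Icc (-(C : ℤ)) C)).Finite :=
        (Set.finite_Icc _ _).prod ((Set.finite_Icc _ _).prod (Set.finite_Icc _ _))
      refine Set.Finite.subset (h1.image (fun p => (⟨p.1, ⟨p.2.1, p.2.2⟩⟩ : Gam))) ?_
      rintro ⟨n, ⟨a, b⟩⟩ ⟨h2, h3, h4⟩
      exact ⟨(n, a, b), ⟨h2, h3, h4⟩, rfl⟩
    refine hfin.subset ?_
    rintro g ⟨l, ⟨k, hk, hkl⟩, hl⟩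
    have hk1 := hRK k hk
    have hl1 := hRL l hl
    have e1 : ∀ v : E3, |v.1| ≤ ‖v‖ ∧ |v.2.1| ≤ ‖v‖ ∧ |v.2.2| ≤ ‖v‖ := by
      intro v
      refine ⟨?_, ?_, ?_⟩
      · exact norm_fst_le v
      · exact le_trans (norm_fst_le v.2) (norm_snd_le v)
      · exact le_trans (norm_snd_le v.2) (norm_snd_le v)
    obtain ⟨k1, k2, k3⟩ := e1 k
    obtain ⟨l1, l2, l3⟩ := e1 l
    have hgl : g • k = l := hkl
    rw [smul_def] at hgl
    have h1 : k.1 + g.n * tau = l.1 := congrArg Prod.fst hgl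
    have h2 : Real.exp (g.n * tau) * k.2.1 + sp g.a = l.2.1 := congrArg (fun z => z.2.1) hgl
    have h3 : Real.exp (-(g.n * tau)) * k.2.2 + sm g.a = l.2.2 := congrArg (fun z => z.2.2) hgl
    have hnt : |(g.n : ℝ) * tau| ≤ 2 * R := by
      have : (g.n : ℝ) * tau = l.1 - k.1 := by linarith
      rw [this]
      calc |l.1 - k.1| ≤ |l.1| + |k.1| := abs_sub _ _
        _ ≤ 2 * R := by linarith
    have hn : |(g.n : ℝ)| ≤ N := by
      rw [abs_mul, abs_of_pos tau_pos] at hnt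
      have : |(g.n : ℝ)| ≤ 2 * R / tau := by
        rw [le_div_iff₀ tau_pos]; exact hnt
      linarith
    have hexp1 : Real.exp (g.n * tau) ≤ Real.exp (2 * R) :=
      Real.exp_le_exp.2 (le_trans (le_abs_self _) hnt)
    have hexp2 : Real.exp (-(g.n * tau)) ≤ Real.exp (2 * R) :=
      Real.exp_le_exp.2 (le_trans (neg_le_abs _) hnt)
    have hsp : |sp g.a| ≤ C := by
      have : sp g.a = l.2.1 - Real.exp (g.n * tau) * k.2.1 := by linarith
      rw [this]
      calc |l.2.1 - Real.exp (g.n * tau) * k.2.1| ≤ |l.2.1| + |Real.exp (g.n * tau) * k.2.1| :=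
            abs_sub _ _
        _ ≤ R + Real.exp (2 * R) * R := by
            rw [abs_mul, abs_of_pos (Real.exp_pos _)]
            have := mul_le_mul hexp1 (le_trans k2 hk1) (abs_nonneg _) (Real.exp_pos _).le
            linarith
        _ ≤ C := hC
    have hsm : |sm g.a| ≤ C := by
      have : sm g.a = l.2.2 - Real.exp (-(g.n * tau)) * k.2.2 := by linarith
      rw [this]
      calc |l.2.2 - Real.exp (-(g.n * tau)) * k.2.2|
            ≤ |l.2.2| + |Real.exp (-(g.n * tau)) * k.2.2| := abs_sub _ _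
        _ ≤ R + Real.exp (2 * R) * R := by
            rw [abs_mul, abs_of_pos (Real.exp_pos _)]
            have := mul_le_mul hexp2 (le_trans k3 hk1) (abs_nonneg _) (Real.exp_pos _).le
            linarith
        _ ≤ C := hC
    have h33 : (1 : ℝ) ≤ √3 := by
      rw [Real.one_le_sqrt]; norm_num
    rw [sp_apply] at hsp
    rw [sm_apply] at hsm
    rw [abs_le] at hsp hsm hn
    have hre1 : -(C : ℝ) ≤ g.a.re := by linarith [hsp.1, hsm.1]
    have hre2 : (g.a.re : ℝ) ≤ C := by linarith [hsp.2, hsm.2]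
    have him1 : -(C : ℝ) ≤ g.a.im * √3 := by linarith [hsp.1, hsm.2]
    have him2 : (g.a.im : ℝ) * √3 ≤ C := by linarith [hsp.2, hsm.1]
    have him3 : |(g.a.im : ℝ)| ≤ C := by
      have h5 : |(g.a.im : ℝ) * √3| ≤ C := abs_le.2 ⟨him1, him2⟩
      rw [abs_mul, abs_of_pos (by linarith : (0 : ℝ) < √3)] at h5
      nlinarith [abs_nonneg (g.a.im : ℝ)]
    rw [abs_le] at him3
    refine ⟨⟨?_, ?_⟩, ⟨?_, ?_⟩, ⟨?_, ?_⟩⟩
    · exact_mod_cast hn.1
    · exact_mod_cast hn.2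
    · exact_mod_cast hre1
    · exact_mod_cast hre2
    · exact_mod_cast him3.1
    · exact_mod_cast him3.2

end Gam

end Pool.Agent.H69
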