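import Pool.Agent.H69.SolFrame

set_option autoImplicit false
open scoped Manifold ContDiff Topology
open Bundle Set

noncomputable section

namespace Pool.Agent.H69

/-- The coordinate expression of the momentum of `X`. -/
def cmom (X : E3 → E3) (w : CotSpace E3) : ℝ := w.2 (X w.1)

lemma contDiff_X0 : ContDiff ℝ ∞ X0 := contDiff_const
lemma contDiff_X1 : ContDiff ℝ ∞ X1 := by unfold X1; fun_prop
lemma contDiff_X2 : ContDiff ℝ ∞ X2 := by unfold X2; fun_prop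

lemma contDiff_cmom {X : E3 → E3} (hX : ContDiff ℝ ∞ X) : ContDiff ℝ ∞ (cmom X) := by
  have h1 : ContDiff ℝ ∞ (fun w : CotSpace E3 => X (fstL w)) := hX.comp fstL.contDiff
  have h2 : ContDiff ℝ ∞ (fun w : CotSpace E3 => sndL w) := sndL.contDiff
  exact h2.clm_apply h1

lemma hasFDerivAt_X1 (y : E3) : HasFDerivAt X1
    ((ContinuousLinearMap.fst ℝ ℝ (ℝ × ℝ)).smulRight (X1 y)) y := by
  have h : HasFDerivAt (fun y : E3 => Real.exp y.1)
      (Real.exp y.1 • (ContinuousLinearMap.fst ℝ ℝ (ℝ × ℝ))) y := (hasFDerivAt_fst).exp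
  have h2 := (hasFDerivAt_const (0 : ℝ) y).prodMk (h.prodMk (hasFDerivAt_const (0 : ℝ) y))
  refine h2.congr_fderiv ?_
  refine ContinuousLinearMap.ext fun v => ?_
  simp [X1, mul_comm]

lemma hasFDerivAt_X2 (y : E3) : HasFDerivAt X2
    (-(ContinuousLinearMap.fst ℝ ℝ (ℝ × ℝ)).smulRight (X2 y)) y := by
  have h : HasFDerivAt (fun y : E3 => Real.exp (-y.1))
      (Real.exp (-y.1) • (-(ContinuousLinearMap.fst ℝ ℝ (ℝ × ℝ)))) y := (hasFDerivAt_fst).neg.exp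
  have h2 := (hasFDerivAt_const (0 : ℝ) y).prodMk ((hasFDerivAt_const (0 : ℝ) y).prodMk h)
  refine h2.congr_fderiv ?_
  refine ContinuousLinearMap.ext fun v => ?_
  simp [X2, mul_comm]

lemma hasFDerivAt_X0 (y : E3) : HasFDerivAt X0 (0 : E3 →L[ℝ] E3) y := hasFDerivAt_const _ _

lemma hasFDerivAt_cmom {X : E3 → E3} {w : CotSpace E3} {L : E3 →L[ℝ] E3}
    (hX : HasFDerivAt X L w.1) :
    HasFDerivAt (cmom X) ((w.2.comp (L.comp fstL) : CotSpace E3 →L[ℝ] ℝ) +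
      sndL.flip (X w.1)) w := by
  have h1 : HasFDerivAt (fun w : CotSpace E3 => X (fstL w)) (L.comp fstL) w :=
    HasFDerivAt.comp w hX fstL.hasFDerivAt
  exact HasFDerivAt.clm_apply sndL.hasFDerivAt h1

lemma fderiv_cmom0 (w ξ : CotSpace E3) : fderiv ℝ (cmom X0) w ξ = ξ.2 (X0 w.1) := by
  rw [(hasFDerivAt_cmom (hasFDerivAt_X0 w.1)).fderiv]
  simp
  rfl

lemma fderiv_cmom1 (w ξ : CotSpace E3) :
    fderiv ℝ (cmom X1) w ξ = ξ.2 (X1 w.1) + ξ.1.1 * cmom X1 w := by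
  rw [(hasFDerivAt_cmom (hasFDerivAt_X1 w.1)).fderiv]
  have : ((w.2.comp (((ContinuousLinearMap.fst ℝ ℝ (ℝ × ℝ)).smulRight (X1 w.1)).comp fstL) :
    CotSpace E3 →L[ℝ] ℝ) + sndL.flip (X1 w.1)) ξ = w.2 (ξ.1.1 • X1 w.1) + ξ.2 (X1 w.1) := rfl
  rw [this, map_smul, smul_eq_mul, add_comm]
  rfl

lemma fderiv_cmom2 (w ξ : CotSpace E3) :
    fderiv ℝ (cmom X2) w ξ = ξ.2 (X2 w.1) - ξ.1.1 * cmom X2 w := by
  rw [(hasFDerivAt_cmom (hasFDerivAt_X2 w.1)).fderiv]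
  have : ((w.2.comp ((-(ContinuousLinearMap.fst ℝ ℝ (ℝ × ℝ)).smulRight (X2 w.1)).comp fstL) :
    CotSpace E3 →L[ℝ] ℝ) + sndL.flip (X2 w.1)) ξ = w.2 (-(ξ.1.1 • X2 w.1)) + ξ.2 (X2 w.1) := rfl
  rw [this, map_neg, map_smul, smul_eq_mul, add_comm, ← sub_eq_add_neg]
  rfl

/-- The Hamiltonian. -/
def hSol (z : TStar E3 SolM) : ℝ :=
  (mom X0 z ^ 2 + mom X1 z ^ 2 + (mom X2 z - 1) ^ 2) / 2

/-- The correction function. -/
def fSol (z : TStar E3 SolM) : ℝ :=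
  -mom X0 z + mom X0 z * (mom X2 z - 1) / 4

/-- The Hamiltonian in coordinates. -/
def chSol (w : CotSpace E3) : ℝ :=
  (cmom X0 w ^ 2 + cmom X1 w ^ 2 + (cmom X2 w - 1) ^ 2) / 2

/-- The correction function in coordinates. -/
def cfSol (w : CotSpace E3) : ℝ :=
  -cmom X0 w + cmom X0 w * (cmom X2 w - 1) / 4

lemma contDiff_chSol : ContDiff ℝ ∞ chSol := by
  have h0 := contDiff_cmom contDiff_X0
  have h1 := contDiff_cmom contDiff_X1
  have h2 := contDiff_cmom contDiff_X2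
  unfold chSol
  fun_prop

lemma contDiff_cfSol : ContDiff ℝ ∞ cfSol := by
  have h0 := contDiff_cmom contDiff_X0
  have h1 := contDiff_cmom contDiff_X1
  have h2 := contDiff_cmom contDiff_X2
  unfold cfSol
  fun_prop

lemma inCh_mom {X : E3 → E3} (hX : InvField X) {z₀ : TStar E3 SolM}
    {w : CotSpace E3} (hw : w ∈ (chartAt (CotSpace E3) z₀).target) :
    inCh (mom X) z₀ w = cmom X w := mom_symm hX hw

lemma inCh_hSol {z₀ : TStar E3 SolM}
    {w : CotSpace E3} (hw : w ∈ (chartAt (CotSpace E3) z₀).target) :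
    inCh hSol z₀ w = chSol w := by
  unfold inCh hSol chSol
  simp only [Function.comp_apply]
  rw [mom_symm invField_X0 hw, mom_symm invField_X1 hw, mom_symm invField_X2 hw]
  rfl

lemma inCh_fSol {z₀ : TStar E3 SolM}
    {w : CotSpace E3} (hw : w ∈ (chartAt (CotSpace E3) z₀).target) :
    inCh fSol z₀ w = cfSol w := by
  unfold inCh fSol cfSol
  simp only [Function.comp_apply]
  rw [mom_symm invField_X0 hw, mom_symm invField_X2 hw]
  rfl

lemma contMDiff_mom {X : E3 → E3} (hX : InvField X) (h : ContDiff ℝ ∞ X) :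
    ContMDiff 𝓘(ℝ, CotSpace E3) 𝓘(ℝ, ℝ) ∞ (mom X) :=
  contMDiff_of_inCh fun _ => ⟨cmom X, contDiff_cmom h, fun _ hw => inCh_mom hX hw⟩

lemma contMDiff_hSol : ContMDiff 𝓘(ℝ, CotSpace E3) 𝓘(ℝ, ℝ) ∞ hSol :=
  contMDiff_of_inCh fun _ => ⟨chSol, contDiff_chSol, fun _ hw => inCh_hSol hw⟩

lemma contMDiff_fSol : ContMDiff 𝓘(ℝ, CotSpace E3) 𝓘(ℝ, ℝ) ∞ fSol :=
  contMDiff_of_inCh fun _ => ⟨cfSol, contDiff_cfSol, fun _ hw => inCh_fSol hw⟩

lemma fderiv_chSol (w ξ : CotSpace E3) :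
    fderiv ℝ chSol w ξ = cmom X0 w * (ξ.2 (X0 w.1)) +
      cmom X1 w * (ξ.2 (X1 w.1) + ξ.1.1 * cmom X1 w) +
      (cmom X2 w - 1) * (ξ.2 (X2 w.1) - ξ.1.1 * cmom X2 w) := by
  have h0 := ((contDiff_cmom contDiff_X0).differentiable (by simp) w).hasFDerivAt
  have h1 := ((contDiff_cmom contDiff_X1).differentiable (by simp) w).hasFDerivAt
  have h2 := ((contDiff_cmom contDiff_X2).differentiable (by simp) w).hasFDerivAt
  have e : chSol = fun w => (1 / 2 : ℝ) * (cmom X0 w ^ 2 + cmom X1 w ^ 2 +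
      (cmom X2 w - 1) ^ 2) := by
    funext w; unfold chSol; ring
  have h := (((h0.pow 2).fun_add (h1.pow 2)).fun_add
    ((h2.sub_const 1).pow 2)).const_mul (1 / 2 : ℝ)
  rw [e, h.fderiv, ← fderiv_cmom0, ← fderiv_cmom1, ← fderiv_cmom2]
  simp
  ring

lemma fderiv_cfSol (w ξ : CotSpace E3) :
    fderiv ℝ cfSol w ξ = -(ξ.2 (X0 w.1)) + (ξ.2 (X0 w.1) * (cmom X2 w - 1) +
      cmom X0 w * (ξ.2 (X2 w.1) - ξ.1.1 * cmom X2 w)) / 4 := by
  have h0 := ((contDiff_cmom contDiff_X0).differentiable (by simp) w).hasFDerivAt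
  have h2 := ((contDiff_cmom contDiff_X2).differentiable (by simp) w).hasFDerivAt
  have e : cfSol = fun w => -cmom X0 w + (1 / 4 : ℝ) * (cmom X0 w * (cmom X2 w - 1)) := by
    funext w; unfold cfSol; ring
  have h := h0.fun_neg.fun_add ((h0.fun_mul (h2.sub_const 1)).const_mul (1 / 4 : ℝ))
  rw [e, h.fderiv, ← fderiv_cmom0, ← fderiv_cmom2]
  simp
  ring

end Pool.Agent.H69
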