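import Pool.Agent.H69.TStarDefs

set_option autoImplicit false
open scoped Manifold ContDiff Topology
open Bundle Set

noncomputable section

namespace Pool.Agent.H69

variable {E : Type} [NormedAddCommGroup E] [NormedSpace ℝ E]
  {M : Type} [TopologicalSpace M] [ChartedSpace E M] [IsManifold 𝓘(ℝ, E) ∞ M]

instance : IsManifold 𝓘(ℝ, CotSpace E) ∞ (TStar E M) := by
  have h : IsManifold ((𝓘(ℝ, E)).prod 𝓘(ℝ, E →L[ℝ] ℝ)) ∞
    (TotalSpace (E →L[ℝ] ℝ) (fun x : M => TangentSpace 𝓘(ℝ, E) x →L[ℝ] Trivial M ℝ x)) :=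
    inferInstance
  rw [← modelWithCornersSelf_prod] at h
  exact h

instance : IsManifold 𝓘(ℝ, CotSpace E) 1 (TStar E M) := .of_le (n := ∞) (by simp)

lemma contMDiff_base : ContMDiff 𝓘(ℝ, CotSpace E) 𝓘(ℝ, E) ∞ (TStar.base : TStar E M → M) := by
  have h : ContMDiff ((𝓘(ℝ, E)).prod 𝓘(ℝ, E →L[ℝ] ℝ)) 𝓘(ℝ, E) ∞
    (TotalSpace.proj : TotalSpace (E →L[ℝ] ℝ)
      (fun x : M => TangentSpace 𝓘(ℝ, E) x →L[ℝ] Trivial M ℝ x) → M) := contMDiff_proj _
  rw [← modelWithCornersSelf_prod] at h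
  exact h

lemma cot_fst (z₀ z : TStar E M) :
    (chartAt (CotSpace E) z₀ z).1 = chartAt E z₀.base z.base := rfl

lemma cot_source' {z₀ z : TotalSpace (E →L[ℝ] ℝ)
    (fun x : M => TangentSpace 𝓘(ℝ, E) x →L[ℝ] Trivial M ℝ x)}
    (h : z ∈ (chartAt (ModelProd E (E →L[ℝ] ℝ)) z₀).source) :
    z.1 ∈ (chartAt E z₀.1).source := by
  rw [FiberBundle.chartedSpace_chartAt] at h
  simp at h
  exact h.1

lemma cot_source {z₀ z : TStar E M} (h : z ∈ (chartAt (CotSpace E) z₀).source) :
    z.base ∈ (chartAt E z₀.base).source := cot_source' h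

/-- The covector as an element of the dual of the model space. -/
def TStar.cov (z : TStar E M) : E →L[ℝ] ℝ := z.covector

lemma cot_symm_fst {z₀ : TStar E M} {w : CotSpace E}
    (hw : w ∈ (chartAt (CotSpace E) z₀).target) :
    ((chartAt (CotSpace E) z₀).symm w).base = (chartAt E z₀.base).symm w.1 := by
  have h := (chartAt (CotSpace E) z₀).right_inv hw
  have h2 := (chartAt (CotSpace E) z₀).map_target hw
  have h3 := cot_source h2
  have h4 : chartAt E z₀.base ((chartAt (CotSpace E) z₀).symm w).base = w.1 := by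
    rw [← cot_fst, h]
  rw [← h4, (chartAt E z₀.base).left_inv h3]

lemma cot_target_fst {z₀ : TStar E M} {w : CotSpace E}
    (hw : w ∈ (chartAt (CotSpace E) z₀).target) : w.1 ∈ (chartAt E z₀.base).target := by
  have h := (chartAt (CotSpace E) z₀).right_inv hw
  rw [← h, cot_fst]
  exact (chartAt E z₀.base).map_source (cot_source ((chartAt (CotSpace E) z₀).map_target hw))

lemma symmL_eq {x₀ x : M} (h : x ∈ (chartAt E x₀).source) :
    (trivializationAt E (TangentSpace 𝓘(ℝ, E)) x₀).symmL ℝ x =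
      mfderiv 𝓘(ℝ, E) 𝓘(ℝ, E) (chartAt E x₀).symm (chartAt E x₀ x) := by
  have h3 := TangentBundle.symmL_trivializationAt (I := 𝓘(ℝ, E)) h
  rw [ModelWithCorners.range_eq_univ, mfderivWithin_univ] at h3
  exact h3

lemma cot_snd (z₀ z : TStar E M) (h : z.base ∈ (chartAt E z₀.base).source) :
    (chartAt (CotSpace E) z₀ z).2 = z.cov.comp
      (chartDeriv z₀.base (chartAt E z₀.base z.base)) := by
  have h1 := hom_chart (𝕜 := ℝ) (F₁ := E) (F₂ := ℝ) (E₁ := (TangentSpace 𝓘(ℝ, E) : M → Type))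
    (E₂ := Trivial M ℝ) (HB := E) z₀ z
  have h2 := congrArg Prod.snd h1
  have h3 := symmL_eq h
  unfold chartDeriv
  rw [← h3]
  refine Eq.trans h2 ?_
  ext v
  simp only [ContinuousLinearMap.inCoordinates, ContinuousLinearMap.comp_apply]
  simp
  rfl

lemma cot_symm_snd {z₀ : TStar E M} {w : CotSpace E}
    (hw : w ∈ (chartAt (CotSpace E) z₀).target) :
    w.2 = ((chartAt (CotSpace E) z₀).symm w).cov.comp (chartDeriv z₀.base w.1) := by
  have h := (chartAt (CotSpace E) z₀).right_inv hw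
  have h2 := (chartAt (CotSpace E) z₀).map_target hw
  have h3 := cot_snd z₀ _ (cot_source h2)
  rw [← cot_fst, h] at h3
  exact h3

lemma cot_target_nhds {z₀ : TStar E M} {w : CotSpace E}
    (hw : w ∈ (chartAt (CotSpace E) z₀).target) :
    (chartAt (CotSpace E) z₀).target ∈ 𝓝 w :=
  (chartAt (CotSpace E) z₀).open_target.mem_nhds hw

section general

variable {V : Type} [NormedAddCommGroup V] [NormedSpace ℝ V]
  {N : Type} [TopologicalSpace N] [ChartedSpace V N] [IsManifold 𝓘(ℝ, V) 1 N]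

lemma chart_symm_mdiff {z₀ : N} {w : V} (hw : w ∈ (chartAt V z₀).target) :
    MDifferentiableAt 𝓘(ℝ, V) 𝓘(ℝ, V) (chartAt V z₀).symm w :=
  mdifferentiableAt_atlas_symm (ChartedSpace.chart_mem_atlas z₀) hw

lemma chartDeriv_self (z : N) : chartDeriv z (chartAt V z z) = ContinuousLinearMap.id ℝ V := by
  have h := mfderivWithin_range_extChartAt_symm (I := 𝓘(ℝ, V)) (x := z)
  rw [ModelWithCorners.range_eq_univ, mfderivWithin_univ] at h
  exact h

lemma inChart_self (α : OneForm V N) (z : N) (v : V) :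
    α.inChart z (chartAt V z z) v = α.eval z v := by
  unfold OneForm.inChart
  rw [chartDeriv_self]
  have h1 : ∀ z' : N, z' = z → (α z' : V →L[ℝ] ℝ) = (α z : V →L[ℝ] ℝ) := by
    rintro z' rfl
    rfl
  have h2 := h1 _ ((chartAt V z).left_inv (mem_chart_source V z))
  exact congrFun (congrArg DFunLike.coe h2) v

/-- The coordinate expression of a function in the chart at `z₀`. -/
def inCh (f : N → ℝ) (z₀ : N) : V → ℝ := f ∘ (chartAt V z₀).symm

lemma differential_inChart {f : N → ℝ} (hf : MDifferentiable 𝓘(ℝ, V) 𝓘(ℝ, ℝ) f) {z₀ : N} {w : V}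
    (hw : w ∈ (chartAt V z₀).target) (v : V) :
    (differential V f).inChart z₀ w v = fderiv ℝ (inCh f z₀) w v := by
  have hc := mfderiv_comp w (hf ((chartAt V z₀).symm w)) (chart_symm_mdiff hw)
  have h2 : mfderiv 𝓘(ℝ, V) 𝓘(ℝ, ℝ) (f ∘ (chartAt V z₀).symm) w =
    fderiv ℝ (inCh f z₀) w := mfderiv_eq_fderiv
  rw [h2] at hc
  exact (congrFun (congrArg DFunLike.coe hc) v).symm

lemma differential_eval {f : N → ℝ} (hf : MDifferentiable 𝓘(ℝ, V) 𝓘(ℝ, ℝ) f) (z : N) (v : V) :
    (differential V f).eval z v = fderiv ℝ (inCh f z) (chartAt V z z) v := by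
  rw [← inChart_self, differential_inChart hf (mem_chart_target V z)]

end general

/-- The projection `CotSpace E → E`. -/
def fstL : CotSpace E →L[ℝ] E := ContinuousLinearMap.fst ℝ E (E →L[ℝ] ℝ)

/-- The projection `CotSpace E → E^*`. -/
def sndL : CotSpace E →L[ℝ] (E →L[ℝ] ℝ) := ContinuousLinearMap.snd ℝ E (E →L[ℝ] ℝ)

/-- In bundle coordinates `(y, π)` the Liouville form is `π ∘ dy`. -/
lemma liouville_inChart {z₀ : TStar E M} {w : CotSpace E}
    (hw : w ∈ (chartAt (CotSpace E) z₀).target) (v : CotSpace E) :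
    (liouville E M).inChart z₀ w v = w.2 v.1 := by
  have hproj : MDifferentiableAt 𝓘(ℝ, CotSpace E) 𝓘(ℝ, E)
      (TStar.base : TStar E M → M) ((chartAt (CotSpace E) z₀).symm w) :=
    (contMDiff_base _).mdifferentiableAt (by simp)
  have hc := mfderiv_comp w hproj (chart_symm_mdiff hw)
  have he : (TStar.base : TStar E M → M) ∘ (chartAt (CotSpace E) z₀).symm
      =ᶠ[𝓝 w] (chartAt E z₀.base).symm ∘ (fstL : CotSpace E → E) := by
    filter_upwards [cot_target_nhds hw] with v hv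
    exact cot_symm_fst hv
  have hs : MDifferentiableAt 𝓘(ℝ, E) 𝓘(ℝ, E) (chartAt E z₀.base).symm (fstL w) :=
    chart_symm_mdiff (cot_target_fst hw)
  have hf : MDifferentiableAt 𝓘(ℝ, CotSpace E) 𝓘(ℝ, E) (fstL : CotSpace E → E) w :=
    (fstL.differentiableAt).mdifferentiableAt
  have hc2 := mfderiv_comp w hs hf
  rw [he.mfderiv_eq, hc2] at hc
  have hc' := congrFun (congrArg DFunLike.coe hc) v
  have h4 : (mfderiv 𝓘(ℝ, CotSpace E) 𝓘(ℝ, E) (fstL : CotSpace E → E) w) v = v.1 := by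
    rw [mfderiv_eq_fderiv, fstL.fderiv]
    rfl
  have h5 := congrFun (congrArg DFunLike.coe (cot_symm_snd hw)) v.1
  have h6 : (chartDeriv z₀.base w.1)
      ((mfderiv 𝓘(ℝ, CotSpace E) 𝓘(ℝ, E) (fstL : CotSpace E → E) w) v) =
      (chartDeriv z₀.base w.1) v.1 :=
    congrArg _ h4
  refine Eq.trans (congrArg ((chartAt (CotSpace E) z₀).symm w).cov
    (hc'.symm.trans h6)) h5.symm

/-- The canonical symplectic form is `dπ ∧ dy` in bundle coordinates. -/
lemma canonicalForm_apply (z : TStar E M) (ξ η : CotSpace E) :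
    canonicalForm z ξ η = ξ.2 η.1 - η.2 ξ.1 := by
  have key : ∀ a b : CotSpace E, fderiv ℝ (fun w => (liouville E M).inChart z w b)
      (chartAt (CotSpace E) z z) a = a.2 b.1 := by
    intro a b
    have h : (fun w => (liouville E M).inChart z w b) =ᶠ[𝓝 (chartAt (CotSpace E) z z)]
        ((sndL : CotSpace E →L[ℝ] (E →L[ℝ] ℝ)).flip b.1 : CotSpace E →L[ℝ] ℝ) := by
      filter_upwards [cot_target_nhds (mem_chart_target (CotSpace E) z)] with w hw
      exact liouville_inChart hw b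
    rw [h.fderiv_eq, ContinuousLinearMap.fderiv]
    rfl
  unfold canonicalForm OneForm.d
  rw [key, key]

/-- Sanity check: the Hamiltonian vector at a point is unique (`ω` is nondegenerate). -/
lemma IsHamiltonianVector.unique {h : TStar E M → ℝ} {z : TStar E M}
    {X Y : CotSpace E} (hX : IsHamiltonianVector h z X) (hY : IsHamiltonianVector h z Y) :
    X = Y := by
  have key : ∀ η : CotSpace E, X.2 η.1 - η.2 X.1 = Y.2 η.1 - η.2 Y.1 := by
    intro η
    rw [← canonicalForm_apply z X η, ← canonicalForm_apply z Y η]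
    exact (hX η).trans (hY η).symm
  refine Prod.ext ?_ ?_
  · rw [← sub_eq_zero]
    by_contra hne
    obtain ⟨φ, hφ⟩ := SeparatingDual.exists_ne_zero (R := ℝ) hne
    apply hφ
    have h1 := key ((0, φ) : E × (E →L[ℝ] ℝ))
    simp only [map_zero, zero_sub, neg_inj] at h1
    rw [map_sub, h1, sub_self]
  · refine ContinuousLinearMap.ext fun v => ?_
    have h1 := key ((v, 0) : E × (E →L[ℝ] ℝ))
    simpa using h1

lemma liouville_eval (z : TStar E M) (ξ : CotSpace E) :
    (liouville E M).eval z ξ = z.cov ξ.1 := by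
  rw [← inChart_self, liouville_inChart (mem_chart_target (CotSpace E) z)]
  have h := cot_snd z z (mem_chart_source E z.base)
  rw [chartDeriv_self] at h
  exact congrFun (congrArg DFunLike.coe h) ξ.1

lemma chart_self_snd (z : TStar E M) : (chartAt (CotSpace E) z z).2 = z.cov := by
  have h := cot_snd z z (mem_chart_source E z.base)
  rw [chartDeriv_self] at h
  exact h

/-- The one-form `p dx + df`. -/
def liouvilleAdd (f : TStar E M → ℝ) : OneForm (CotSpace E) (TStar E M) :=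
  fun z => liouville E M z + differential (CotSpace E) f z

lemma liouvilleAdd_eval (f : TStar E M → ℝ) (z : TStar E M) (v : CotSpace E) :
    (liouvilleAdd f).eval z v = (liouville E M).eval z v + (differential (CotSpace E) f).eval z v :=
  rfl

lemma liouvilleAdd_inChart {f : TStar E M → ℝ}
    (hf : ContMDiff 𝓘(ℝ, CotSpace E) 𝓘(ℝ, ℝ) ∞ f) {z₀ : TStar E M} {w : CotSpace E}
    (hw : w ∈ (chartAt (CotSpace E) z₀).target) (v : CotSpace E) :
    (liouvilleAdd f).inChart z₀ w v = w.2 v.1 + fderiv ℝ (inCh f z₀) w v := by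
  rw [← differential_inChart (hf.mdifferentiable (by simp)) hw, ← liouville_inChart hw]
  rfl

lemma inCh_contDiffOn {f : TStar E M → ℝ} (hf : ContMDiff 𝓘(ℝ, CotSpace E) 𝓘(ℝ, ℝ) ∞ f)
    (z₀ : TStar E M) :
    ContDiffOn ℝ ∞ (inCh f z₀) (chartAt (CotSpace E) z₀).target := by
  have h := contMDiffOn_chart_symm (I := 𝓘(ℝ, CotSpace E)) (n := ∞) (x := z₀)
  have h2 := hf.comp_contMDiffOn h
  exact contMDiffOn_iff_contDiffOn.1 h2

lemma liouvilleAdd_isSmooth {f : TStar E M → ℝ}
    (hf : ContMDiff 𝓘(ℝ, CotSpace E) 𝓘(ℝ, ℝ) ∞ f) : (liouvilleAdd f).IsSmooth := by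
  intro z₀ v
  have h1 : ContDiffOn ℝ ∞ (fun w : CotSpace E =>
      ((sndL : CotSpace E →L[ℝ] (E →L[ℝ] ℝ)).flip v.1 : CotSpace E →L[ℝ] ℝ) w +
        fderiv ℝ (inCh f z₀) w v) (chartAt (CotSpace E) z₀).target := by
    apply ContDiffOn.add
    · exact (ContinuousLinearMap.contDiff _).contDiffOn
    · exact ((inCh_contDiffOn hf z₀).fderiv_of_isOpen (chartAt (CotSpace E) z₀).open_target
        (by simp)).clm_apply contDiffOn_const
  refine h1.congr fun w hw => ?_
  exact liouvilleAdd_inChart hf hw v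

lemma liouvilleAdd_d {f : TStar E M → ℝ}
    (hf : ContMDiff 𝓘(ℝ, CotSpace E) 𝓘(ℝ, ℝ) ∞ f) (z : TStar E M) (ξ η : CotSpace E) :
    (liouvilleAdd f).d z ξ η = canonicalForm z ξ η := by
  have hz := mem_chart_target (CotSpace E) z
  have hg := (inCh_contDiffOn hf z).contDiffAt (cot_target_nhds hz)
  have hg1 : DifferentiableAt ℝ (fderiv ℝ (inCh f z)) (chartAt (CotSpace E) z z) :=
    (hg.fderiv_right (m := 1) (by norm_cast)).differentiableAt (by norm_num)
  have hsym : IsSymmSndFDerivAt ℝ (inCh f z) (chartAt (CotSpace E) z z) := by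
    apply hg.isSymmSndFDerivAt
    simp only [minSmoothness_of_isRCLikeNormedField]
    exact WithTop.coe_le_coe.2 le_top
  have key : ∀ a b : CotSpace E, fderiv ℝ (fun w => (liouvilleAdd f).inChart z w b)
      (chartAt (CotSpace E) z z) a = a.2 b.1 +
        fderiv ℝ (fderiv ℝ (inCh f z)) (chartAt (CotSpace E) z z) a b := by
    intro a b
    have h : (fun w => (liouvilleAdd f).inChart z w b) =ᶠ[𝓝 (chartAt (CotSpace E) z z)]
        fun w => ((sndL : CotSpace E →L[ℝ] (E →L[ℝ] ℝ)).flip b.1 : CotSpace E →L[ℝ] ℝ) w +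
          fderiv ℝ (inCh f z) w b := by
      filter_upwards [cot_target_nhds (mem_chart_target (CotSpace E) z)] with w hw
      exact liouvilleAdd_inChart hf hw b
    have h1 := ((sndL : CotSpace E →L[ℝ] (E →L[ℝ] ℝ)).flip b.1 :
      CotSpace E →L[ℝ] ℝ).hasFDerivAt (x := chartAt (CotSpace E) z z)
    have h2 := hg1.hasFDerivAt.clm_apply (hasFDerivAt_const b (chartAt (CotSpace E) z z))
    rw [h.fderiv_eq, (h1.fun_add h2).fderiv]
    simp
    rfl
  rw [canonicalForm_apply]
  unfold OneForm.d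
  rw [key, key, hsym.eq ξ η]
  ring

/-- A function on the cotangent bundle whose coordinate expressions are all given by smooth
functions is smooth. -/
lemma contMDiff_of_inCh {f : TStar E M → ℝ}
    (h : ∀ z₀ : TStar E M, ∃ F : CotSpace E → ℝ, ContDiff ℝ ∞ F ∧
      ∀ w ∈ (chartAt (CotSpace E) z₀).target, inCh f z₀ w = F w) :
    ContMDiff 𝓘(ℝ, CotSpace E) 𝓘(ℝ, ℝ) ∞ f := by
  intro z₀
  obtain ⟨F, hF, hw⟩ := h z₀
  have h1 : ContMDiffAt 𝓘(ℝ, CotSpace E) 𝓘(ℝ, ℝ) ∞ (F ∘ (chartAt (CotSpace E) z₀)) z₀ := by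
    have h2 : ContMDiffAt 𝓘(ℝ, CotSpace E) 𝓘(ℝ, CotSpace E) ∞ (chartAt (CotSpace E) z₀) z₀ :=
      contMDiffOn_chart.contMDiffAt ((chartAt (CotSpace E) z₀).open_source.mem_nhds
        (mem_chart_source (CotSpace E) z₀))
    exact hF.contMDiff.contMDiffAt.comp z₀ h2
  refine h1.congr_of_eventuallyEq ?_
  filter_upwards [(chartAt (CotSpace E) z₀).open_source.mem_nhds
    (mem_chart_source (CotSpace E) z₀)] with z hz
  have h3 := hw _ ((chartAt (CotSpace E) z₀).map_source hz)
  rw [Function.comp_apply, ← h3]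
  unfold inCh
  rw [Function.comp_apply, (chartAt (CotSpace E) z₀).left_inv hz]

end Pool.Agent.H69
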