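import Mathlib

set_option autoImplicit false
open scoped Manifold ContDiff Topology
open Bundle Set

noncomputable section

namespace Pool.Agent.H69

/-! ### One-forms on manifolds and their exterior derivative -/

section Forms

variable (V : Type) [NormedAddCommGroup V] [NormedSpace ℝ V]
  (N : Type) [TopologicalSpace N] [ChartedSpace V N]

/-- A one-form on the manifold `N`: a linear functional on each tangent space. -/
def OneForm : Type := ∀ z : N, TangentSpace 𝓘(ℝ, V) z →L[ℝ] ℝ

variable {V N}

/-- The value `α_z(ξ)` of a one-form on a tangent vector at `z`. -/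
def OneForm.eval (α : OneForm V N) (z : N) (ξ : TangentSpace 𝓘(ℝ, V) z) : ℝ := α z ξ

/-- The derivative at `w` of the inverse of the preferred chart at `z₀`, from the model space `V`
to the tangent space at the point with coordinate `w` (which in Mathlib is `V` by definition). -/
def chartDeriv (z₀ : N) (w : V) : V →L[ℝ] V :=
  mfderiv 𝓘(ℝ, V) 𝓘(ℝ, V) (chartAt V z₀).symm w

/-- The coordinate expression of a one-form in the preferred chart at `z₀` (the pullback of the
form under the inverse of the chart), evaluated at the point `w` on the vector `v`. -/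
def OneForm.inChart (α : OneForm V N) (z₀ : N) (w v : V) : ℝ :=
  α.eval ((chartAt V z₀).symm w) (chartDeriv z₀ w v)

/-- A one-form is smooth when its coefficients in all charts are smooth. -/
def OneForm.IsSmooth (α : OneForm V N) : Prop :=
  ∀ (z₀ : N) (v : V), ContDiffOn ℝ ∞ (fun w => α.inChart z₀ w v) (chartAt V z₀).target

/-- The exterior derivative `(dα)(ξ, η)` of a one-form at the point `z`, computed in the preferred
chart at `z` (through which the tangent space at `z` is identified with the model space `V`). -/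
def OneForm.d (α : OneForm V N) (z : N) (ξ η : V) : ℝ :=
  fderiv ℝ (fun w => α.inChart z w η) (chartAt V z z) ξ -
    fderiv ℝ (fun w => α.inChart z w ξ) (chartAt V z z) η

variable (V) in
/-- The differential `df` of a function, as a one-form. -/
def differential (f : N → ℝ) : OneForm V N := fun z => mfderiv 𝓘(ℝ, V) 𝓘(ℝ, ℝ) f z

end Forms

/-! ### The cotangent bundle -/

section Cotangent

variable (E : Type) [NormedAddCommGroup E] [NormedSpace ℝ E]

/-- The model vector space `E × E^*` of the cotangent bundle. -/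
def CotSpace : Type := E × (E →L[ℝ] ℝ)

instance : NormedAddCommGroup (CotSpace E) :=
  (Prod.normedAddCommGroup : NormedAddCommGroup (E × (E →L[ℝ] ℝ)))

instance : NormedSpace ℝ (CotSpace E) := (Prod.normedSpace : NormedSpace ℝ (E × (E →L[ℝ] ℝ)))

variable (M : Type) [TopologicalSpace M] [ChartedSpace E M] [IsManifold 𝓘(ℝ, E) ∞ M]

/-- The cotangent bundle `T^*M`: Mathlib's bundle of continuous linear maps from the tangent
bundle to the trivial line bundle. -/
def TStar : Type :=
  TotalSpace (E →L[ℝ] ℝ) (fun x : M => TangentSpace 𝓘(ℝ, E) x →L[ℝ] Trivial M ℝ x)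

instance : TopologicalSpace (TStar E M) :=
  Bundle.ContinuousLinearMap.topologicalSpaceTotalSpace (RingHom.id ℝ) E
    (fun x : M => TangentSpace 𝓘(ℝ, E) x) ℝ (Trivial M ℝ)

instance : ChartedSpace (CotSpace E) (TStar E M) :=
  (FiberBundle.chartedSpace : ChartedSpace (ModelProd E (E →L[ℝ] ℝ))
    (TotalSpace (E →L[ℝ] ℝ) (fun x : M => TangentSpace 𝓘(ℝ, E) x →L[ℝ] Trivial M ℝ x)))

variable {M}

/-- Covectors at the point `x`. -/
def Covector (x : M) : Type := TangentSpace 𝓘(ℝ, E) x →L[ℝ] ℝ

instance (x : M) : AddCommGroup (Covector E x) :=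
  (ContinuousLinearMap.addCommGroup : AddCommGroup (TangentSpace 𝓘(ℝ, E) x →L[ℝ] ℝ))

instance (x : M) : Module ℝ (Covector E x) :=
  (ContinuousLinearMap.module : Module ℝ (TangentSpace 𝓘(ℝ, E) x →L[ℝ] ℝ))

variable {E}

/-- The element `(x, p)` of `T^*M`. -/
def TStar.mk (x : M) (p : Covector E x) : TStar E M := TotalSpace.mk x p

/-- The base point of an element of `T^*M`. -/
def TStar.base (z : TStar E M) : M := TotalSpace.proj z

/-- The covector of an element of `T^*M`. -/
def TStar.covector (z : TStar E M) : Covector E z.base := TotalSpace.snd z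

variable (E M) in
/-- The Liouville (tautological) one-form `p dx` on `T^*M`. -/
def liouville : OneForm (CotSpace E) (TStar E M) := fun z =>
  ContinuousLinearMap.comp (z.covector : TangentSpace 𝓘(ℝ, E) z.base →L[ℝ] ℝ)
    (mfderiv 𝓘(ℝ, CotSpace E) 𝓘(ℝ, E) (TStar.base : TStar E M → M) z)

/-- The canonical symplectic form `ω = d(p dx)` on `T^*M`. -/
def canonicalForm (z : TStar E M) (ξ η : CotSpace E) : ℝ := (liouville E M).d z ξ η

/-- `X` is the value at `z` of the Hamiltonian vector field of `h`: `ω(X, ·) = - dh`. -/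
def IsHamiltonianVector (h : TStar E M → ℝ) (z : TStar E M) (X : CotSpace E) : Prop :=
  ∀ η : CotSpace E, canonicalForm z X η = - (differential (CotSpace E) h).eval z η

/-- The energy level `{h = k}` is of contact type: there is a smooth one-form `α` whose exterior
derivative agrees with the canonical symplectic form on the tangent spaces of the level, and which
is positive on the Hamiltonian vector field along the level. -/
def IsContactType (h : TStar E M → ℝ) (k : ℝ) : Prop :=
  ∃ α : OneForm (CotSpace E) (TStar E M), α.IsSmooth ∧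
    (∀ z, h z = k → ∀ ξ η : CotSpace E, (differential (CotSpace E) h).eval z ξ = 0 → (differential (CotSpace E) h).eval z η = 0 →
      α.d z ξ η = canonicalForm z ξ η) ∧
    (∀ z, h z = k → ∃ X : CotSpace E, IsHamiltonianVector h z X ∧ 0 < α.eval z X)

/-- `N` is a continuous function on `T^*M` which is a norm on every fibre. -/
structure IsFibreNorm (N : TStar E M → ℝ) : Prop where
  continuous : Continuous N
  pos : ∀ (x : M) (p : Covector E x), p ≠ 0 → 0 < N (TStar.mk x p)
  smul : ∀ (x : M) (c : ℝ) (p : Covector E x), N (TStar.mk x (c • p)) = |c| * N (TStar.mk x p)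
  add_le : ∀ (x : M) (p p' : Covector E x),
    N (TStar.mk x (p + p')) ≤ N (TStar.mk x p) + N (TStar.mk x p')

/-- Convex superlinear Hamiltonians: `C^2`, with positive definite fibre Hessian, and with
`h(x, p) / |p| → ∞` as `|p| → ∞`, uniformly in `x`. -/
structure IsConvexSuperlinear (h : TStar E M → ℝ) : Prop where
  contMDiff : ContMDiff 𝓘(ℝ, CotSpace E) 𝓘(ℝ, ℝ) 2 h
  convex : ∀ (x : M) (p v : Covector E x), v ≠ 0 →
    0 < iteratedDeriv 2 (fun t : ℝ => h (TStar.mk x (p + t • v))) 0
  superlinear : ∃ N : TStar E M → ℝ, IsFibreNorm N ∧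
    ∀ K : ℝ, ∃ R : ℝ, ∀ z, R ≤ N z → K * N z ≤ h z

/-- `e₀ = min {k : π({h = k}) = M}`. -/
def energyZero (h : TStar E M → ℝ) : ℝ :=
  sInf {k : ℝ | ∀ x : M, ∃ p : Covector E x, h (TStar.mk x p) = k}

/-- The Mane critical value `inf_u sup_x h(x, d_x u)` over smooth functions `u`. -/
def maneCritical (h : TStar E M → ℝ) : ℝ :=
  sInf {c : ℝ | ∃ u : M → ℝ, ContMDiff 𝓘(ℝ, E) 𝓘(ℝ, ℝ) ∞ u ∧
    ∀ x : M, h (TStar.mk x (differential E u x)) ≤ c}

variable (E) in
/-- `q : M' → M` is a smooth universal covering. -/
structure IsUniversalCovering {M' : Type} [TopologicalSpace M'] [ChartedSpace E M']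
    (q : M' → M) : Prop where
  simplyConnected : SimplyConnectedSpace M'
  isCoveringMap : IsCoveringMap q
  surjective : Function.Surjective q
  isLocalDiffeomorph : IsLocalDiffeomorph 𝓘(ℝ, E) 𝓘(ℝ, E) ∞ q

/-- The lift of a Hamiltonian under a local diffeomorphism `q : M' → M`:
`(x, p) ↦ h (q x, p ∘ (d_x q)⁻¹)`. -/
def liftHamiltonian {M' : Type} [TopologicalSpace M'] [ChartedSpace E M']
    [IsManifold 𝓘(ℝ, E) ∞ M'] (q : M' → M) (h : TStar E M → ℝ) : TStar E M' → ℝ := fun z =>
  h (TStar.mk (q z.base) (ContinuousLinearMap.comp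
    (z.covector : TangentSpace 𝓘(ℝ, E) z.base →L[ℝ] ℝ)
    (mfderiv 𝓘(ℝ, E) 𝓘(ℝ, E) q z.base).inverse))

variable (E M) in
/-- `M` is a closed (compact, Hausdorff) connected manifold of dimension three. -/
structure IsClosedThreeManifold : Prop where
  finrank_eq : Module.finrank ℝ E = 3
  compactSpace : CompactSpace M
  t2Space : T2Space M
  connectedSpace : ConnectedSpace M

variable (E M) in
/-- `M` is not `C^1`-diffeomorphic to any two-dimensional manifold (in particular not to the
two-torus). -/
def NotSurface : Prop :=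
  ∀ (F : Type) [NormedAddCommGroup F] [NormedSpace ℝ F] (T : Type) [TopologicalSpace T]
    [ChartedSpace F T], Module.finrank ℝ F = 2 → IsEmpty (M ≃ₘ^1⟮𝓘(ℝ, E), 𝓘(ℝ, F)⟯ T)

end Cotangent

end Pool.Agent.H69
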